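import Mathlib

/-!
# Smoothness of hypersurfaces
-/

set_option autoImplicit false

open TensorProduct KaehlerDifferential

namespace Pool.Agent.Helper15K1.TT

/-- The quotient of a formally smooth algebra by an element `h` is formally smooth if some
derivation with values in the quotient has the value one at `h`. -/
theorem formallySmooth_of_derivation {R P S : Type} [CommRing R] [CommRing P] [CommRing S]
    [Algebra R P] [Algebra R S] [Algebra P S] [IsScalarTower R P S] [Algebra.FormallySmooth R P]
    (hf : Function.Surjective (algebraMap P S)) (h : P)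
    (hker : RingHom.ker (algebraMap P S) = Ideal.span {h}) (δ : Derivation R P S)
    (hδ : δ h = 1) : Algebra.FormallySmooth R S := by
  refine (Algebra.FormallySmooth.iff_split_injection (P := P) hf).2 ?_
  set I := RingHom.ker (algebraMap P S) with hI
  have hmem : h ∈ I := by rw [hker]; exact Ideal.mem_span_singleton_self h
  set g : I.Cotangent := I.toCotangent ⟨h, hmem⟩ with hg
  -- the map `S → I/I²`
  let m₀ : P →ₗ[P] I.Cotangent := LinearMap.toSpanSingleton P _ g
  have hm₀ : LinearMap.ker (Algebra.linearMap P S) ≤ LinearMap.ker m₀ := by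
    intro a ha
    have ha' : a ∈ I := ha
    rw [LinearMap.mem_ker, LinearMap.toSpanSingleton_apply, hg, ← map_smul,
      Ideal.toCotangent_eq_zero]
    change a * h ∈ I ^ 2
    rw [pow_two]
    exact Ideal.mul_mem_mul ha' hmem
  let e := LinearMap.quotKerEquivOfSurjective (Algebra.linearMap P S) hf
  let m : S →ₗ[P] I.Cotangent := (Submodule.liftQ _ m₀ hm₀) ∘ₗ e.symm.toLinearMap
  have hm : ∀ a : P, m (algebraMap P S a) = a • g := by
    intro a
    have h1 : e.symm (algebraMap P S a) = Submodule.Quotient.mk a := by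
      rw [LinearEquiv.symm_apply_eq]
      rfl
    change Submodule.liftQ _ m₀ hm₀ (e.symm (algebraMap P S a)) = _
    rw [h1, Submodule.liftQ_apply]
    rfl
  let φ : S ⊗[P] Ω[P⁄R] →ₗ[P] S :=
    (LinearMap.liftBaseChange S δ.liftKaehlerDifferential).restrictScalars P
  have hφ : φ (1 ⊗ₜ D R P h) = 1 := by
    change LinearMap.liftBaseChange S δ.liftKaehlerDifferential (1 ⊗ₜ D R P h) = 1
    rw [LinearMap.liftBaseChange_tmul, one_smul, Derivation.liftKaehlerDifferential_comp_D, hδ]
  refine ⟨m ∘ₗ φ, ?_⟩
  ext x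
  obtain ⟨⟨y, hy⟩, rfl⟩ := I.toCotangent_surjective x
  have hy' := hy
  rw [hker, Ideal.mem_span_singleton'] at hy'
  obtain ⟨a, ha⟩ := hy'
  have hx : I.toCotangent ⟨y, hy⟩ = a • g := by
    rw [hg, ← map_smul]
    congr 1
    exact Subtype.ext ha.symm
  rw [hx, map_smul]
  congr 1
  rw [LinearMap.comp_apply, LinearMap.comp_apply, hg, kerCotangentToTensor_toCotangent, hφ,
    ← map_one (algebraMap P S), hm, one_smul]

/-- An element of a finitely generated projective module which is nonzero in the fibres over all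
maximal ideals is unimodular. -/
theorem exists_eq_one {S M : Type} [CommRing S] [AddCommGroup M] [Module S M]
    [Module.Projective S M] [Module.Finite S M] (ω : M)
    (hω : ∀ I : Ideal S, I.IsMaximal → ω ∉ (I • ⊤ : Submodule S M)) :
    ∃ φ : M →ₗ[S] S, φ ω = 1 := by
  let J : Ideal S := LinearMap.range (LinearMap.applyₗ ω : (M →ₗ[S] S) →ₗ[S] S)
  have hJ : J = ⊤ := by
    by_contra hne
    obtain ⟨I, hI, hJI⟩ := Ideal.exists_le_maximal J hne
    apply hω I hI
    obtain ⟨n, f, g, -, -, hfg⟩ := Module.Finite.exists_comp_eq_id_of_projective S M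
    have h1 : ω = f (g ω) := by
      rw [← LinearMap.comp_apply, hfg]
      rfl
    have h2 : g ω = ∑ j, (g ω) j • (Pi.single j (1 : S) : Fin n → S) := by
      funext i
      simp [Pi.single_apply]
    rw [h1, h2, map_sum]
    refine Submodule.sum_mem _ fun j _ => ?_
    rw [map_smul]
    refine Submodule.smul_mem_smul (hJI ?_) trivial
    exact ⟨(LinearMap.proj j) ∘ₗ g, rfl⟩
  have h1 : (1 : S) ∈ J := by rw [hJ]; trivial
  obtain ⟨φ, hφ⟩ := h1
  exact ⟨φ, hφ⟩

end Pool.Agent.Helper15K1.TT
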