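import Mathlib

/-!
# Relations between differentials and the transcendence degree
-/

set_option autoImplicit false

open TensorProduct KaehlerDifferential Cardinal

namespace Pool.Agent.Helper15K1.TT

/-- The field generated by `m` elements has transcendence degree at most `m`. -/
theorem trdeg_adjoin_le {k κ : Type} [Field k] [Field κ] [Algebra k κ] {n : ℕ} (s : Fin n → κ) :
    Algebra.trdeg k (IntermediateField.adjoin k (Set.range s)) ≤ n := by
  set E := IntermediateField.adjoin k (Set.range s) with hE
  have hs : ∀ j, s j ∈ E := fun j => IntermediateField.subset_adjoin k _ ⟨j, rfl⟩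
  let s' : Fin n → E := fun j => ⟨s j, hs j⟩
  have h1 : IntermediateField.adjoin k (Set.range s') = ⊤ := by
    apply IntermediateField.map_injective E.val
    rw [IntermediateField.adjoin_map, ← Set.range_comp]
    have h2 : (⇑E.val ∘ s') = s := rfl
    rw [h2, ← hE]
    exact (IntermediateField.fieldRange_val (S := E)).symm.trans
      (AlgHom.fieldRange_eq_map E.val)
  have h3 : Algebra.IsAlgebraic (Algebra.adjoin k (Set.range s')) E := by
    rw [← IntermediateField.isAlgebraic_adjoin_iff_top, h1]
    refine ⟨fun x => ?_⟩
    exact isAlgebraic_algebraMap (⟨x, trivial⟩ : (⊤ : IntermediateField k E))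
  refine (Algebra.IsAlgebraic.trdeg_le_cardinalMk k (Set.range s')).trans ?_
  refine Cardinal.mk_range_le.trans ?_
  simp

/-- If `n + 1` elements are integral over a field of transcendence degree at most `n`, they are
algebraically dependent. -/
theorem not_algebraicIndependent_of_isIntegral {k E κ : Type} [Field k] [Field κ] [Algebra k κ]
    [Field E] [Algebra k E] [Algebra E κ] [IsScalarTower k E κ]
    {n : ℕ} (hE : Algebra.trdeg k E ≤ n) (u : Fin (n + 1) → κ)
    (hu : ∀ j, IsIntegral E (u j)) :
    ¬ AlgebraicIndependent k u := by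
  intro hind
  let A := integralClosure E κ
  let u' : Fin (n + 1) → A := fun j => ⟨u j, hu j⟩
  have h1 : AlgebraicIndependent k u' := by
    have h2 : u = (IsScalarTower.toAlgHom k A κ) ∘ u' := rfl
    rw [h2] at hind
    exact hind.of_comp _
  have h3 := h1.cardinalMk_le_trdeg
  have h4 : Algebra.trdeg k E + Algebra.trdeg E A = Algebra.trdeg k A := trdeg_add_eq k E
  have h4' : Algebra.trdeg E A = 0 := trdeg_eq_zero
  rw [h4', add_zero] at h4
  rw [← h4] at h3
  have h5 := h3.trans hE
  rw [Cardinal.mk_fin] at h5
  have h6 : n + 1 ≤ n := by exact_mod_cast h5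
  omega

/-- The differentials of generators span the module of differentials. -/
theorem span_D_eq_top {k F : Type} [Field k] [Field F] [Algebra k F] {n : ℕ} (x : Fin n → F)
    (hx : IntermediateField.adjoin k (Set.range x) = ⊤) :
    Submodule.span F (Set.range fun j => D k F (x j)) = ⊤ := by
  rw [eq_top_iff, ← KaehlerDifferential.span_range_derivation, Submodule.span_le]
  rintro _ ⟨y, rfl⟩
  have hy : y ∈ IntermediateField.adjoin k (Set.range x) := by rw [hx]; trivial
  induction hy using IntermediateField.adjoin_induction with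
  | mem y hy => obtain ⟨j, rfl⟩ := hy; exact Submodule.subset_span ⟨j, rfl⟩
  | algebraMap a => simp
  | add a b _ _ ha hb => rw [map_add]; exact add_mem ha hb
  | inv a _ ha =>
    rw [Derivation.leibniz_inv]
    exact Submodule.smul_mem _ _ ha
  | mul a b _ _ ha hb =>
    rw [Derivation.leibniz]
    exact add_mem (Submodule.smul_mem _ _ hb) (Submodule.smul_mem _ _ ha)

/-- If the differentials of some of the generators span the module of differentials, the field is
algebraic over the field generated by these generators. -/
theorem isIntegral_of_span {k F ι : Type} [Field k] [Field F] [Algebra k F] {n : ℕ} (x : Fin n → F)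
    (hx : IntermediateField.adjoin k (Set.range x) = ⊤) (y : ι → F)
    (hy : Submodule.span F (Set.range fun j => D k F (y j)) = ⊤) (a : F) :
    IsIntegral (IntermediateField.adjoin k (Set.range y)) a := by
  set E := IntermediateField.adjoin k (Set.range y) with hE
  have h1 : Algebra.EssFiniteType k F := by
    classical
    rw [← IntermediateField.fg_top_iff]
    refine ⟨Finset.univ.image x, ?_⟩
    rw [← hx]
    simp
  have h2 : Algebra.EssFiniteType E F := Algebra.EssFiniteType.of_comp k E F
  have h3 : ∀ z : Ω[F⁄k], KaehlerDifferential.map k E F F z = 0 := by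
    intro z
    have hz : z ∈ Submodule.span F (Set.range fun j => D k F (y j)) := by rw [hy]; trivial
    induction hz using Submodule.span_induction with
    | mem z hz =>
      obtain ⟨j, rfl⟩ := hz
      have hj : y j = algebraMap E F ⟨y j, IntermediateField.subset_adjoin k _ ⟨j, rfl⟩⟩ := rfl
      change KaehlerDifferential.map k E F F (D k F (y j)) = 0
      rw [KaehlerDifferential.map_D]
      change D E F (y j) = 0
      rw [hj, Derivation.map_algebraMap]
    | zero => rw [map_zero]
    | add a b _ _ ha hb => rw [map_add, ha, hb, add_zero]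
    | smul a b _ hb => rw [map_smul, hb, smul_zero]
  have h4 : Algebra.FormallyUnramified E F := by
    refine ⟨⟨fun a b => ?_⟩⟩
    obtain ⟨a, rfl⟩ := KaehlerDifferential.map_surjective k E F a
    obtain ⟨b, rfl⟩ := KaehlerDifferential.map_surjective k E F b
    rw [h3, h3]
  have h5 : Algebra.IsSeparable E F := Algebra.FormallyUnramified.isSeparable E F
  exact (Algebra.IsSeparable.isIntegral E a)

/-- The main lemma for fields. -/
theorem not_algebraicIndependent_field {k F κ : Type} [Field k] [Field F] [Field κ] [Algebra k F]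
    [Algebra k κ] [Algebra F κ] [IsScalarTower k F κ] {n : ℕ} (x : Fin n → F)
    (hx : IntermediateField.adjoin k (Set.range x) = ⊤) (c : Fin n → κ)
    (h : ∑ j, c j ⊗ₜ[F] D k F (x j) = (0 : κ ⊗[F] Ω[F⁄k])) :
    ¬ AlgebraicIndependent k
      (Fin.cons (-∑ j, c j * algebraMap F κ (x j)) c : Fin (n + 1) → κ) := by
  classical
  obtain ⟨ι, a, ha, hspan, hli⟩ := exists_linearIndependent' F (fun j => D k F (x j))
  have hspan' : Submodule.span F (Set.range ((fun j => D k F (x j)) ∘ a)) = ⊤ := by
    rw [hspan, span_D_eq_top x hx]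
  let b : Module.Basis ι F Ω[F⁄k] := Module.Basis.mk hli hspan'.ge
  have hb : ∀ l, b l = D k F (x (a l)) := fun l => Module.Basis.mk_apply hli _ l
  -- the relations between the coefficients
  have hrel : ∀ l, ∑ j, c j * algebraMap F κ (b.coord l (D k F (x j))) = 0 := by
    intro l
    let f : κ ⊗[F] Ω[F⁄k] →ₗ[κ] κ :=
      LinearMap.liftBaseChange κ ((Algebra.linearMap F κ) ∘ₗ b.coord l)
    have h1 := congrArg f h
    rw [map_sum, map_zero] at h1
    rw [← h1]
    refine Finset.sum_congr rfl fun j _ => ?_
    rw [LinearMap.liftBaseChange_tmul]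
    rfl
  let s : Fin n → κ := fun j => if j ∈ Set.range a then algebraMap F κ (x j) else c j
  set E := IntermediateField.adjoin k (Set.range s) with hE
  have hs : ∀ j, s j ∈ E := fun j => IntermediateField.subset_adjoin k _ ⟨j, rfl⟩
  -- all elements of `F` are integral over `E`
  have hF : ∀ y : F, IsIntegral E (algebraMap F κ y) := by
    intro y
    have h1 := isIntegral_of_span x hx (x ∘ a) hspan' y
    set E' := IntermediateField.adjoin k (Set.range (x ∘ a)) with hE'
    have h2 : ∀ z ∈ E', algebraMap F κ z ∈ E := by
      have h3 : E' ≤ E.comap (IsScalarTower.toAlgHom k F κ) := by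
        rw [hE', IntermediateField.adjoin_le_iff]
        rintro _ ⟨l, rfl⟩
        have h4 := hs (a l)
        have h5 : s (a l) = algebraMap F κ (x (a l)) := if_pos ⟨l, rfl⟩
        rw [h5] at h4
        exact h4
      exact fun z hz => h3 hz
    let φ : E' →+* E := ((algebraMap F κ).comp (algebraMap E' F)).codRestrict E.toSubfield
      fun z => h2 z.1 z.2
    obtain ⟨p, hp, hp0⟩ := h1
    refine ⟨p.map φ, hp.map φ, ?_⟩
    rw [Polynomial.eval₂_map]
    have h6 : (algebraMap E κ).comp φ = (algebraMap F κ).comp (algebraMap E' F) := rfl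
    rw [h6, ← Polynomial.hom_eval₂, hp0, map_zero]
  -- all coefficients are integral over `E`
  have hc : ∀ j, IsIntegral E (c j) := by
    intro j
    by_cases hj : j ∈ Set.range a
    · obtain ⟨l, rfl⟩ := hj
      have h1 : c (a l) = - ∑ j ∈ Finset.univ.filter (fun j => j ∉ Set.range a),
          c j * algebraMap F κ (b.coord l (D k F (x j))) := by
        have h2 := hrel l
        rw [← Finset.sum_filter_add_sum_filter_not Finset.univ (fun j => j ∈ Set.range a)] at h2
        rw [eq_neg_iff_add_eq_zero, ← h2]
        congr 1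
        rw [Finset.sum_eq_single (a l)]
        · rw [← hb, b.coord_apply, b.repr_self, Finsupp.single_eq_same, map_one, mul_one]
        · rintro _ h3 h4
          rw [Finset.mem_filter] at h3
          obtain ⟨l', rfl⟩ := h3.2
          rw [← hb, b.coord_apply, b.repr_self, Finsupp.single_eq_of_ne, map_zero, mul_zero]
          rintro rfl
          exact h4 rfl
        · intro h3
          exact absurd (Finset.mem_filter.2 ⟨Finset.mem_univ _, l, rfl⟩) h3
      rw [h1]
      refine IsIntegral.neg (IsIntegral.sum _ fun j hj => ?_)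
      rw [Finset.mem_filter] at hj
      have h5 : s j = c j := if_neg hj.2
      refine IsIntegral.mul ?_ (hF _)
      have h6 := hs j
      rw [h5] at h6
      exact isIntegral_algebraMap (R := E) (x := ⟨c j, h6⟩)
    · have h5 : s j = c j := if_neg hj
      have h6 := hs j
      rw [h5] at h6
      exact isIntegral_algebraMap (R := E) (x := ⟨c j, h6⟩)
  refine not_algebraicIndependent_of_isIntegral (trdeg_adjoin_le s) _ fun j => ?_
  refine Fin.cases ?_ (fun j => ?_) j
  · rw [Fin.cons_zero]
    exact IsIntegral.neg (IsIntegral.sum _ fun j _ => (hc j).mul (hF _))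
  · rw [Fin.cons_succ]
    exact hc j

/-- The main lemma: if the hyperplane `c_0 + c_1 x_1 + … + c_n x_n = 0` passes through a point and
is not transversal there, then its coefficients are algebraically dependent. -/
theorem not_algebraicIndependent_of_sum_eq_zero {k R κ : Type} [Field k] [CommRing R] [Field κ]
    [Algebra k R] [Algebra k κ] [Algebra R κ] [IsScalarTower k R κ] {n : ℕ} (x : Fin n → R)
    (hx : Algebra.adjoin k (Set.range x) = ⊤) (c : Fin n → κ)
    (h : ∑ j, c j ⊗ₜ[R] D k R (x j) = (0 : κ ⊗[R] Ω[R⁄k])) :
    ¬ AlgebraicIndependent k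
      (Fin.cons (-∑ j, c j * algebraMap R κ (x j)) c : Fin (n + 1) → κ) := by
  set F := IntermediateField.adjoin k (Set.range (algebraMap R κ ∘ x)) with hF
  have h1 : ∀ r : R, algebraMap R κ r ∈ F := by
    have h2 : Algebra.adjoin k (Set.range x) ≤
        F.toSubalgebra.comap (IsScalarTower.toAlgHom k R κ) := by
      rw [Algebra.adjoin_le_iff]
      rintro _ ⟨j, rfl⟩
      exact IntermediateField.subset_adjoin k _ ⟨j, rfl⟩
    intro r
    exact h2 (hx ▸ (trivial : r ∈ (⊤ : Subalgebra k R)))
  let φ : R →+* F := (algebraMap R κ).codRestrict F.toSubfield h1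
  let _ : Algebra R F := φ.toAlgebra
  have _ : IsScalarTower R F κ := IsScalarTower.of_algebraMap_eq fun r => rfl
  have _ : IsScalarTower k R F := IsScalarTower.of_algebraMap_eq fun r =>
    Subtype.ext (IsScalarTower.algebraMap_apply k R κ r)
  let x' : Fin n → F := fun j => algebraMap R F (x j)
  have hx' : IntermediateField.adjoin k (Set.range x') = ⊤ := by
    apply IntermediateField.map_injective F.val
    rw [IntermediateField.adjoin_map, ← Set.range_comp]
    have h2 : (⇑F.val ∘ x') = algebraMap R κ ∘ x := rfl
    rw [h2, ← hF]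
    exact (IntermediateField.fieldRange_val (S := F)).symm.trans
      (AlgHom.fieldRange_eq_map F.val)
  have h3 : ∑ j, c j ⊗ₜ[F] D k F (x' j) = (0 : κ ⊗[F] Ω[F⁄k]) := by
    let g : Ω[R⁄k] →ₗ[R] κ ⊗[F] Ω[F⁄k] :=
      ((TensorProduct.mk F κ Ω[F⁄k] 1).restrictScalars R) ∘ₗ KaehlerDifferential.map k k R F
    let f : κ ⊗[R] Ω[R⁄k] →ₗ[κ] κ ⊗[F] Ω[F⁄k] := LinearMap.liftBaseChange κ g
    have h4 := congrArg f h
    rw [map_sum, map_zero] at h4
    rw [← h4]
    refine Finset.sum_congr rfl fun j _ => ?_
    rw [LinearMap.liftBaseChange_tmul]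
    change _ = c j • ((1 : κ) ⊗ₜ[F] (KaehlerDifferential.map k k R F (D k R (x j))))
    rw [KaehlerDifferential.map_D, TensorProduct.smul_tmul', smul_eq_mul, mul_one]
  exact not_algebraicIndependent_field x' hx' c h3

end Pool.Agent.Helper15K1.TT
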