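import Mathlib

/-!
# The coefficients of the universal hyperplane are algebraically independent
-/

set_option autoImplicit false

open MvPolynomial

namespace Pool.Agent.Helper15K1.TT

attribute [local instance] MvPolynomial.algebraMvPolynomial

theorem algebraMap_X' {k R σ : Type} [Field k] [CommRing R] [Algebra k R] (j : σ) :
    algebraMap (MvPolynomial σ k) (MvPolynomial σ R) (X j) = X j :=
  map_X _ _

theorem algebraMap_C' {k R σ : Type} [Field k] [CommRing R] [Algebra k R] (a : k) :
    algebraMap (MvPolynomial σ k) (MvPolynomial σ R) (C a) = C (algebraMap k R a) :=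
  map_C _ _

/-- A transcendental element of `R` is transcendental over `k[X]` in `R[X]`. -/
theorem transcendental_C {k R : Type} [Field k] [CommRing R] [Algebra k R] {σ : Type} (t : R)
    (ht : Transcendental k t) :
    Transcendental (MvPolynomial σ k) (C t : MvPolynomial σ R) := by
  rw [transcendental_iff] at ht ⊢
  intro p hp
  ext m s
  rw [Polynomial.coeff_zero, coeff_zero]
  let q : Polynomial k := ∑ i ∈ Finset.range (p.natDegree + 1),
    Polynomial.monomial i (coeff s (p.coeff i))
  have hq : Polynomial.aeval t q = 0 := by
    have h1 := congrArg (coeff s) hp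
    rw [Polynomial.aeval_eq_sum_range, coeff_zero, coeff_sum] at h1
    rw [map_sum, ← h1]
    refine Finset.sum_congr rfl fun i _ => ?_
    rw [Polynomial.aeval_monomial, Algebra.smul_def, ← C_pow, mul_comm, mul_comm _ (C (t ^ i)),
      coeff_C_mul]
    rfl
  have h2 := ht q hq
  have h3 : q.coeff m = coeff s (p.coeff m) := by
    rw [Polynomial.finsetSum_coeff]
    simp_rw [Polynomial.coeff_monomial]
    rw [Finset.sum_ite_eq']
    split_ifs with h4
    · rfl
    · rw [Finset.mem_range, not_lt] at h4
      rw [Polynomial.coeff_eq_zero_of_natDegree_lt (by omega), coeff_zero]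
  rw [← h3, h2, Polynomial.coeff_zero]

/-- The linear form with the coefficients `x_j` is transcendental over `k[X]` if some `x_j` is
transcendental over `k`. -/
theorem transcendental_sum {k R : Type} [Field k] [CommRing R] [IsDomain R] [Algebra k R] {n : ℕ}
    (x : Fin n → R) (l : Fin n) (hl : Transcendental k (x l)) :
    Transcendental (MvPolynomial (Fin n) k) (∑ j, C (x j) * X j : MvPolynomial (Fin n) R) := by
  intro halg
  let f : MvPolynomial (Fin n) k →+* MvPolynomial (Fin n) k :=
    (aeval (fun j => X j + C (if j = l then (1 : k) else 0)) :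
      MvPolynomial (Fin n) k →ₐ[k] MvPolynomial (Fin n) k).toRingHom
  let g : MvPolynomial (Fin n) R →+* MvPolynomial (Fin n) R :=
    (aeval (fun j => X j + C (if j = l then (1 : R) else 0)) :
      MvPolynomial (Fin n) R →ₐ[R] MvPolynomial (Fin n) R).toRingHom
  have hf : Function.Injective f := by
    let f' : MvPolynomial (Fin n) k →ₐ[k] MvPolynomial (Fin n) k :=
      aeval (fun j => X j - C (if j = l then (1 : k) else 0))
    have h1 : ∀ p, f' (f p) = p := by
      intro p
      have h2 : f'.comp (aeval (fun j => X j + C (if j = l then (1 : k) else 0))) =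
          AlgHom.id k (MvPolynomial (Fin n) k) := by
        ext j
        simp [f']
      exact DFunLike.congr_fun h2 p
    exact Function.LeftInverse.injective h1
  have hfg : (algebraMap (MvPolynomial (Fin n) k) (MvPolynomial (Fin n) R)).comp f =
      g.comp (algebraMap (MvPolynomial (Fin n) k) (MvPolynomial (Fin n) R)) := by
    refine MvPolynomial.ringHom_ext (fun a => ?_) fun j => ?_
    · rw [RingHom.comp_apply, RingHom.comp_apply, algebraMap_C']
      change algebraMap _ _ (aeval _ (C a)) = aeval _ (C _)
      rw [aeval_C, aeval_C, algebraMap_eq, algebraMap_eq, algebraMap_C']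
    · rw [RingHom.comp_apply, RingHom.comp_apply, algebraMap_X']
      change algebraMap _ _ (aeval _ (X j)) = aeval _ (X j)
      rw [aeval_X, aeval_X, map_add, algebraMap_X', algebraMap_C']
      split_ifs
      · rw [map_one]
      · rw [map_zero]
  have h1 := halg.ringHom_of_comp_eq f g hf hfg
  have h2 : g (∑ j, C (x j) * X j) = ∑ j, C (x j) * X j + C (x l) := by
    simp [g, mul_add, Finset.sum_add_distrib, algebraMap_eq]
  rw [h2] at h1
  have h3 := h1.sub halg
  rw [add_sub_cancel_left] at h3
  exact transcendental_C (x l) hl h3

/-- The coefficients of the universal hyperplane through a point of `Spec R` are algebraically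
independent. -/
theorem algebraicIndependent_cons {k R : Type} [Field k] [CommRing R] [IsDomain R] [Algebra k R]
    {n : ℕ} (x : Fin n → R) (l : Fin n) (hl : Transcendental k (x l)) :
    AlgebraicIndependent k (Fin.cons (-∑ j, C (x j) * X j) (fun j => X j) :
      Fin (n + 1) → MvPolynomial (Fin n) R) := by
  have h1 : AlgebraicIndependent k (X : Fin n → MvPolynomial (Fin n) k) :=
    MvPolynomial.algebraicIndependent_X _ _
  have h2 : Transcendental (MvPolynomial (Fin n) k)
      (-∑ j, C (x j) * X j : MvPolynomial (Fin n) R) := by
    intro h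
    have h3 := h.neg
    rw [neg_neg] at h3
    exact transcendental_sum x l hl h3
  have h3 : AlgebraicIndependent (MvPolynomial (Fin n) k)
      (fun _ : Unit => (-∑ j, C (x j) * X j : MvPolynomial (Fin n) R)) := by
    rw [algebraicIndependent_unique_type_iff]
    exact h2
  have h4 := h1.sumElim_comp h3
  let e : Fin (n + 1) ≃ Unit ⊕ Fin n :=
    (finSuccEquiv n).trans ((Equiv.optionEquivSumPUnit _).trans (Equiv.sumComm _ _))
  rw [← algebraicIndependent_equiv e] at h4
  convert h4 using 1
  funext j
  refine Fin.cases ?_ (fun j => ?_) j
  · simp [e]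
  · simp only [Fin.cons_succ, e, Function.comp_apply, Equiv.trans_apply, finSuccEquiv_succ,
      Equiv.optionEquivSumPUnit_some, Equiv.sumComm_apply, Sum.swap_inl, Sum.elim_inr]
    rw [algebraMap_X']

end Pool.Agent.Helper15K1.TT
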