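import Pool.Agent.Helper15K1.TT.Bert1
import Pool.Agent.Helper15K1.TT.Bert2

/-!
# Smoothness of the generic hyperplane section
-/

set_option autoImplicit false

open TensorProduct KaehlerDifferential

namespace Pool.Agent.Helper15K1.TT

attribute [local instance] Algebra.TensorProduct.rightAlgebra

/-- `Spec S` is the section of `Spec (K ⊗ R)` by the hyperplane
`c_0 + c_1 x_1 + … + c_n x_n = 0`. -/
structure IsHyperplaneSection (k K R S : Type) [Field k] [Field K] [CommRing R] [CommRing S]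
    [Algebra k K] [Algebra k R] [Algebra k S] [Algebra K S] [Algebra R S] [IsScalarTower k K S]
    [IsScalarTower k R S] {n : ℕ} (x : Fin n → R) (c : Fin (n + 1) → K) : Prop where
  surj : Function.Surjective (Algebra.TensorProduct.lift (Algebra.ofId K S)
    (IsScalarTower.toAlgHom k R S) fun _ _ => Commute.all _ _ : K ⊗[k] R →ₐ[K] S)
  ker : RingHom.ker (Algebra.TensorProduct.lift (Algebra.ofId K S)
    (IsScalarTower.toAlgHom k R S) fun _ _ => Commute.all _ _ : K ⊗[k] R →ₐ[K] S) =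
      Ideal.span {c 0 ⊗ₜ 1 + ∑ j : Fin n, c j.succ ⊗ₜ x j}

/-- The differential of the equation of a generic hyperplane is unimodular on the hyperplane
section. -/
theorem IsHyperplaneSection.exists_eq_one {k K R S : Type} [Field k] [Field K] [CommRing R]
    [CommRing S] [Algebra k K] [Algebra k R] [Algebra k S] [Algebra K S] [Algebra R S]
    [IsScalarTower k K S] [IsScalarTower k R S] {n : ℕ} {x : Fin n → R} {c : Fin (n + 1) → K}
    (h : IsHyperplaneSection k K R S x c) (hx : Algebra.adjoin k (Set.range x) = ⊤)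
    (hc : AlgebraicIndependent k c) [Algebra.FormallySmooth k R] [Algebra.FiniteType k R] :
    ∃ φ : S ⊗[R] Ω[R⁄k] →ₗ[S] S,
      φ (∑ j : Fin n, algebraMap K S (c j.succ) ⊗ₜ D k R (x j)) = 1 := by
  refine TT.exists_eq_one _ fun I hI hω => ?_
  let _ : Field (S ⧸ I) := Ideal.Quotient.field I
  let f : S ⊗[R] Ω[R⁄k] →ₗ[S] (S ⧸ I) ⊗[R] Ω[R⁄k] :=
    TensorProduct.AlgebraTensorModule.map (Algebra.linearMap S (S ⧸ I)) LinearMap.id
  have h1 : (I • ⊤ : Submodule S (S ⊗[R] Ω[R⁄k])) ≤ LinearMap.ker f := by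
    rw [Submodule.smul_le]
    intro s hs m _
    rw [LinearMap.mem_ker, map_smul, ← IsScalarTower.algebraMap_smul (S ⧸ I) s (f m)]
    have h2 : algebraMap S (S ⧸ I) s = 0 := Ideal.Quotient.eq_zero_iff_mem.2 hs
    rw [h2, zero_smul]
  have h2 := h1 hω
  rw [LinearMap.mem_ker, map_sum] at h2
  have h3 : ∑ j : Fin n, (algebraMap S (S ⧸ I) (algebraMap K S (c j.succ))) ⊗ₜ[R] D k R (x j) =
      (0 : (S ⧸ I) ⊗[R] Ω[R⁄k]) := h2
  have h4 := not_algebraicIndependent_of_sum_eq_zero (k := k) (R := R) (κ := S ⧸ I) x hx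
    (fun j => algebraMap S (S ⧸ I) (algebraMap K S (c j.succ))) h3
  apply h4
  have h5 : algebraMap K S (c 0) + ∑ j : Fin n, algebraMap K S (c j.succ) * algebraMap R S (x j)
      = 0 := by
    have h6 : c 0 ⊗ₜ 1 + ∑ j : Fin n, c j.succ ⊗ₜ x j ∈ RingHom.ker
      (Algebra.TensorProduct.lift (Algebra.ofId K S)
        (IsScalarTower.toAlgHom k R S) fun _ _ => Commute.all _ _ : K ⊗[k] R →ₐ[K] S) := by
      rw [h.ker]
      exact Ideal.mem_span_singleton_self _
    rw [RingHom.mem_ker, map_add, map_sum, Algebra.TensorProduct.lift_tmul] at h6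
    simp only [Algebra.TensorProduct.lift_tmul, map_one, mul_one] at h6
    exact h6
  have h7 : (Fin.cons (-∑ j : Fin n, algebraMap S (S ⧸ I) (algebraMap K S (c j.succ)) *
      algebraMap R (S ⧸ I) (x j)) (fun j => algebraMap S (S ⧸ I) (algebraMap K S (c j.succ))) :
        Fin (n + 1) → S ⧸ I) = (IsScalarTower.toAlgHom k K (S ⧸ I)) ∘ c := by
    funext j
    refine Fin.cases ?_ (fun j => ?_) j
    · rw [Fin.cons_zero, Function.comp_apply]
      rw [add_eq_zero_iff_eq_neg] at h5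
      change _ = algebraMap K (S ⧸ I) (c 0)
      rw [IsScalarTower.algebraMap_apply K S (S ⧸ I), h5, map_neg, map_sum]
      congr 1
    · rfl
  rw [h7]
  exact hc.map' (IsScalarTower.toAlgHom k K (S ⧸ I)).injective

/-- Bertini's theorem: the generic hyperplane section is smooth. -/
theorem IsHyperplaneSection.formallySmooth {k K R S : Type} [Field k] [Field K] [CommRing R]
    [CommRing S] [Algebra k K] [Algebra k R] [Algebra k S] [Algebra K S] [Algebra R S]
    [IsScalarTower k K S] [IsScalarTower k R S] {n : ℕ} {x : Fin n → R} {c : Fin (n + 1) → K}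
    (h : IsHyperplaneSection k K R S x c) (hx : Algebra.adjoin k (Set.range x) = ⊤)
    (hc : AlgebraicIndependent k c) [Algebra.FormallySmooth k R] [Algebra.FiniteType k R] :
    Algebra.FormallySmooth K S := by
  obtain ⟨φ, hφ⟩ := h.exists_eq_one hx hc
  let ψ : K ⊗[k] R →ₐ[K] S := Algebra.TensorProduct.lift (Algebra.ofId K S)
    (IsScalarTower.toAlgHom k R S) fun _ _ => Commute.all _ _
  let _ : Algebra (K ⊗[k] R) S := ψ.toRingHom.toAlgebra
  have _ : IsScalarTower K (K ⊗[k] R) S := IsScalarTower.of_algebraMap_eq fun r =>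
    (ψ.commutes r).symm
  have _ : IsScalarTower R (K ⊗[k] R) S := IsScalarTower.of_algebraMap_eq fun r => by
    change _ = ψ (1 ⊗ₜ r)
    rw [Algebra.TensorProduct.lift_tmul, map_one, one_mul]
    rfl
  let e := KaehlerDifferential.tensorKaehlerEquiv k K R (K ⊗[k] R)
  let g : Ω[R⁄k] →ₗ[R] S := (φ.restrictScalars R) ∘ₗ (TensorProduct.mk R S Ω[R⁄k] 1)
  let G : (K ⊗[k] R) ⊗[R] Ω[R⁄k] →ₗ[K ⊗[k] R] S := LinearMap.liftBaseChange (K ⊗[k] R) g
  let δ : Derivation K (K ⊗[k] R) S := (G ∘ₗ e.symm.toLinearMap).compDer (D K (K ⊗[k] R))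
  refine formallySmooth_of_derivation (R := K) (P := K ⊗[k] R) h.surj
    (c 0 ⊗ₜ 1 + ∑ j : Fin n, c j.succ ⊗ₜ x j) h.ker δ ?_
  have h1 : e (∑ j : Fin n, (c j.succ ⊗ₜ (1 : R)) ⊗ₜ[R] D k R (x j)) =
      D K (K ⊗[k] R) (c 0 ⊗ₜ 1 + ∑ j : Fin n, c j.succ ⊗ₜ x j) := by
    have h2 : ∀ a : K, D K (K ⊗[k] R) (a ⊗ₜ (1 : R)) = 0 := fun a =>
      Derivation.map_algebraMap _ a
    rw [map_add, h2, zero_add, map_sum, map_sum]
    refine Finset.sum_congr rfl fun j _ => ?_
    have h3 : c j.succ ⊗ₜ[k] x j = (c j.succ ⊗ₜ[k] (1 : R)) * ((1 : K) ⊗ₜ[k] x j) := by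
      rw [Algebra.TensorProduct.tmul_mul_tmul, mul_one, one_mul]
    rw [h3, Derivation.leibniz, h2, smul_zero, add_zero]
    exact tensorKaehlerEquiv_tmul_D k K R (K ⊗[k] R) _ _
  change G (e.symm (D K (K ⊗[k] R) (c 0 ⊗ₜ 1 + ∑ j : Fin n, c j.succ ⊗ₜ x j))) = 1
  rw [← h1, LinearEquiv.symm_apply_apply, map_sum, ← hφ, map_sum]
  refine Finset.sum_congr rfl fun j _ => ?_
  rw [LinearMap.liftBaseChange_tmul]
  change ψ (c j.succ ⊗ₜ 1) • φ (1 ⊗ₜ D k R (x j)) = _
  rw [Algebra.TensorProduct.lift_tmul, map_one, mul_one, ← map_smul, TensorProduct.smul_tmul',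
    smul_eq_mul, mul_one]
  rfl

/-- Bertini's theorem: the generic hyperplane section is smooth. -/
theorem IsHyperplaneSection.smooth {k K R S : Type} [Field k] [Field K] [CommRing R]
    [CommRing S] [Algebra k K] [Algebra k R] [Algebra k S] [Algebra K S] [Algebra R S]
    [IsScalarTower k K S] [IsScalarTower k R S] {n : ℕ} {x : Fin n → R} {c : Fin (n + 1) → K}
    (h : IsHyperplaneSection k K R S x c) (hx : Algebra.adjoin k (Set.range x) = ⊤)
    (hc : AlgebraicIndependent k c) [Algebra.Smooth k R] : Algebra.Smooth K S := by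
  have h0 : Algebra.FiniteType k R := inferInstance
  have h1 : Algebra.FormallySmooth K S := h.formallySmooth hx hc
  have h2 : Algebra.FiniteType K S := Algebra.FiniteType.of_surjective _ h.surj
  have h3 : Algebra.FinitePresentation K S := Algebra.FinitePresentation.of_finiteType.1 h2
  exact ⟨h1, h3⟩

end Pool.Agent.Helper15K1.TT
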