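import Pool.Agent.Helper15K1.TT.Bert3
import Pool.Agent.Helper15K1.TT.Bert4

/-!
# The generic hyperplane section as the generic fibre of the universal hyperplane
-/

set_option autoImplicit false

open TensorProduct MvPolynomial

namespace Pool.Agent.Helper15K1.TT

section Defs

variable (k : Type) [Field k] {R : Type} [CommRing R] [Algebra k R] {n : ℕ} (x : Fin n → R)

/-- The ring of functions on the space of the coefficients of the hyperplanes, mapped to the ring of
functions on the universal hyperplane (the pairs of a point and of a hyperplane through it), which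
is a polynomial ring over `R`. -/
noncomputable def coef : MvPolynomial (Fin (n + 1)) k →ₐ[k] MvPolynomial (Fin n) R :=
  aeval (Fin.cons (-∑ j, C (x j) * X j) X)

/-- The submonoid by which one localises. -/
noncomputable def coefMonoid : Submonoid (MvPolynomial (Fin n) R) :=
  (nonZeroDivisors (MvPolynomial (Fin (n + 1)) k)).map (coef k x)

/-- The ring of functions on the generic hyperplane section. -/
abbrev Sec : Type := Localization (coefMonoid k x)

/-- The field of rational functions in the coefficients of the hyperplanes. -/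
abbrev CField (n : ℕ) : Type := FractionRing (MvPolynomial (Fin (n + 1)) k)

/-- The structure morphism of the generic hyperplane section. -/
noncomputable def secMap : CField k n →+* Sec k x :=
  IsLocalization.map (M := nonZeroDivisors (MvPolynomial (Fin (n + 1)) k)) (T := coefMonoid k x)
    (Sec k x) (coef k x).toRingHom (Submonoid.le_comap_map _)

end Defs

section

variable {k : Type} [Field k] {R : Type} [CommRing R] [Algebra k R] {n : ℕ} {x : Fin n → R}

theorem coef_injective [IsDomain R] {l : Fin n} (hl : Transcendental k (x l)) :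
    Function.Injective (coef k x) :=
  algebraicIndependent_cons x l hl

theorem coefMonoid_le [IsDomain R] {l : Fin n} (hl : Transcendental k (x l)) :
    coefMonoid k x ≤ nonZeroDivisors (MvPolynomial (Fin n) R) := by
  rintro _ ⟨a, ha, rfl⟩
  rw [mem_nonZeroDivisors_iff_ne_zero]
  intro h
  have h1 : a = 0 := coef_injective hl (by
    change coef k x a = 0 at h
    rw [h, map_zero])
  exact nonZeroDivisors.ne_zero ha h1

theorem sec_isDomain [IsDomain R] {l : Fin n} (hl : Transcendental k (x l)) :
    IsDomain (Sec k x) :=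
  IsLocalization.isDomain_of_le_nonZeroDivisors _ (coefMonoid_le hl)

theorem secMap_algebraMap (a : MvPolynomial (Fin (n + 1)) k) :
    secMap k x (algebraMap _ _ a) = algebraMap (MvPolynomial (Fin n) R) (Sec k x) (coef k x a) :=
  IsLocalization.map_eq (S := CField k n) (T := coefMonoid k x) _ a

noncomputable instance secAlgebra : Algebra (CField k n) (Sec k x) := (secMap k x).toAlgebra

instance : IsScalarTower k (CField k n) (Sec k x) := IsScalarTower.of_algebraMap_eq fun a => by
  change _ = secMap k x _
  rw [IsScalarTower.algebraMap_apply k (MvPolynomial (Fin (n + 1)) k) (CField k n),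
    secMap_algebraMap, AlgHom.commutes]
  rfl

/-- The coefficients of the generic hyperplane. -/
noncomputable def cc (k : Type) [Field k] (n : ℕ) (j : Fin (n + 1)) : CField k n :=
  algebraMap (MvPolynomial (Fin (n + 1)) k) _ (X j)

theorem cc_algebraicIndependent (k : Type) [Field k] (n : ℕ) :
    AlgebraicIndependent k (cc k n) := by
  have h1 : AlgebraicIndependent k (X : Fin (n + 1) → MvPolynomial (Fin (n + 1)) k) :=
    MvPolynomial.algebraicIndependent_X _ _
  exact h1.map' (f := IsScalarTower.toAlgHom k (MvPolynomial (Fin (n + 1)) k) (CField k n))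
    (IsFractionRing.injective _ _)

theorem adjoin_cc (k : Type) [Field k] (n : ℕ) :
    IntermediateField.adjoin k (Set.range (cc k n)) = ⊤ := by
  rw [eq_top_iff]
  intro z _
  have h1 : ∀ a : MvPolynomial (Fin (n + 1)) k, algebraMap _ (CField k n) a ∈
      IntermediateField.adjoin k (Set.range (cc k n)) := by
    intro a
    induction a using MvPolynomial.induction_on with
    | C a =>
      have h2 : algebraMap (MvPolynomial (Fin (n + 1)) k) (CField k n) (C a) =
          algebraMap k (CField k n) a :=
        (IsScalarTower.algebraMap_apply k (MvPolynomial (Fin (n + 1)) k) (CField k n) a).symm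
      rw [h2]
      exact IntermediateField.algebraMap_mem _ _
    | add p q hp hq => rw [map_add]; exact add_mem hp hq
    | mul_X p j hp =>
      rw [map_mul]
      exact mul_mem hp (IntermediateField.subset_adjoin k _ ⟨j, rfl⟩)
  obtain ⟨a, b, _, rfl⟩ := IsFractionRing.div_surjective (A := MvPolynomial (Fin (n + 1)) k) z
  exact div_mem (h1 a) (h1 b)

theorem secMap_cc_succ (j : Fin n) :
    secMap k x (cc k n j.succ) = algebraMap (MvPolynomial (Fin n) R) (Sec k x) (X j) := by
  rw [cc, secMap_algebraMap, coef, aeval_X, Fin.cons_succ]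

theorem secMap_cc_zero :
    secMap k x (cc k n 0) =
      - ∑ j, algebraMap R (Sec k x) (x j) * secMap k x (cc k n (Fin.succ j)) := by
  simp_rw [secMap_cc_succ]
  rw [cc, secMap_algebraMap, coef, aeval_X, Fin.cons_zero, map_neg, map_sum]
  congr 1
  refine Finset.sum_congr rfl fun j _ => ?_
  rw [map_mul]
  rfl

/-- The map from the ring of functions on the product. -/
noncomputable def secPsi (k : Type) [Field k] {R : Type} [CommRing R] [Algebra k R] {n : ℕ}
    (x : Fin n → R) : CField k n ⊗[k] R →ₐ[CField k n] Sec k x :=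
  Algebra.TensorProduct.lift (Algebra.ofId (CField k n) (Sec k x))
    (IsScalarTower.toAlgHom k R (Sec k x)) fun _ _ => Commute.all _ _

theorem secPsi_tmul (a : CField k n) (r : R) :
    secPsi k x (a ⊗ₜ r) = secMap k x a * algebraMap R (Sec k x) r :=
  Algebra.TensorProduct.lift_tmul _ _ _ _ _

theorem secPsi_surjective : Function.Surjective (secPsi k x) := by
  have h1 : ∀ b : MvPolynomial (Fin n) R,
      algebraMap _ (Sec k x) b ∈ (secPsi k x).range := by
    intro b
    induction b using MvPolynomial.induction_on with
    | C a =>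
      refine ⟨1 ⊗ₜ a, ?_⟩
      change secPsi k x (1 ⊗ₜ a) = _
      rw [secPsi_tmul, map_one, one_mul]
      rfl
    | add p q hp hq => rw [map_add]; exact add_mem hp hq
    | mul_X p j hp =>
      rw [map_mul]
      refine mul_mem hp ⟨cc k n j.succ ⊗ₜ 1, ?_⟩
      change secPsi k x (cc k n j.succ ⊗ₜ 1) = _
      rw [secPsi_tmul, map_one, mul_one, secMap_cc_succ]
  intro z
  obtain ⟨b, ⟨_, a, ha, rfl⟩, rfl⟩ := IsLocalization.exists_mk'_eq (coefMonoid k x) z
  have h2 : IsLocalization.mk' (Sec k x) b (⟨coef k x a, ⟨a, ha, rfl⟩⟩ : coefMonoid k x) =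
      algebraMap _ (Sec k x) b * secMap k x (algebraMap _ _ a)⁻¹ := by
    rw [IsLocalization.mk'_eq_iff_eq_mul]
    change _ = _ * algebraMap _ _ (coef k x a)
    rw [← secMap_algebraMap, mul_assoc, ← map_mul, inv_mul_cancel₀, map_one, mul_one]
    intro h3
    have h4 : a = 0 := IsFractionRing.injective (MvPolynomial (Fin (n + 1)) k) (CField k n)
      (by rw [h3, map_zero])
    exact nonZeroDivisors.ne_zero ha h4
  change ∃ z, secPsi k x z =
    IsLocalization.mk' (Sec k x) b (⟨coef k x a, ⟨a, ha, rfl⟩⟩ : coefMonoid k x)
  rw [h2]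
  exact mul_mem (h1 b) ((secPsi k x).range.algebraMap_mem _)

theorem secPsi_factor {Q : Type} [CommRing Q] (q : CField k n ⊗[k] R →+* Q)
    (hq : q (cc k n 0 ⊗ₜ 1 + ∑ j : Fin n, cc k n j.succ ⊗ₜ x j) = 0) (z : CField k n ⊗[k] R)
    (hz : secPsi k x z = 0) : q z = 0 := by
  let g : MvPolynomial (Fin n) R →+* Q :=
    eval₂Hom (q.comp (Algebra.TensorProduct.includeRight : R →ₐ[k] CField k n ⊗[k] R).toRingHom)
      (fun j => q (cc k n j.succ ⊗ₜ 1))
  have hgX : ∀ j, g (X j) = q (cc k n j.succ ⊗ₜ 1) := fun j => eval₂Hom_X' _ _ _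
  have hgC : ∀ r, g (C r) = q (1 ⊗ₜ r) := fun r => eval₂Hom_C _ _ _
  have hg : ∀ a : MvPolynomial (Fin (n + 1)) k, g (coef k x a) =
      q (algebraMap _ (CField k n) a ⊗ₜ 1) := by
    intro a
    have h1 : g.comp (coef k x).toRingHom =
        (q.comp (Algebra.TensorProduct.includeLeft :
          CField k n →ₐ[CField k n] CField k n ⊗[k] R).toRingHom).comp
            (algebraMap (MvPolynomial (Fin (n + 1)) k) (CField k n)) := by
      refine MvPolynomial.ringHom_ext (fun a => ?_) fun j => ?_
      · have h2 : coef k x (C a) = C (algebraMap k R a) := (coef k x).commutes a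
        have h3 : algebraMap (MvPolynomial (Fin (n + 1)) k) (CField k n) (C a) =
            algebraMap k (CField k n) a :=
          (IsScalarTower.algebraMap_apply k (MvPolynomial (Fin (n + 1)) k) (CField k n) a).symm
        change g (coef k x (C a)) = q (algebraMap _ (CField k n) (C a) ⊗ₜ 1)
        rw [h2, hgC, h3]
        congr 1
        exact ((Algebra.TensorProduct.algebraMap_apply a).symm.trans
          (Algebra.TensorProduct.algebraMap_apply' a)).symm
      · change g (coef k x (X j)) = q (cc k n j ⊗ₜ 1)
        refine Fin.cases ?_ (fun j => ?_) j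
        · rw [coef, aeval_X, Fin.cons_zero, map_neg, map_sum]
          simp_rw [map_mul, hgC, hgX]
          rw [map_add, map_sum] at hq
          rw [neg_eq_iff_add_eq_zero, ← hq, add_comm]
          congr 1
          refine Finset.sum_congr rfl fun j _ => ?_
          rw [← map_mul, Algebra.TensorProduct.tmul_mul_tmul, mul_one, one_mul]
        · rw [coef, aeval_X, Fin.cons_succ, hgX]
    exact DFunLike.congr_fun h1 a
  have hu : ∀ y : coefMonoid k x, IsUnit (g y) := by
    rintro ⟨_, a, ha, rfl⟩
    change IsUnit (g (coef k x a))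
    rw [hg]
    refine IsUnit.map q (IsUnit.map (Algebra.TensorProduct.includeLeft :
          CField k n →ₐ[CField k n] CField k n ⊗[k] R) ?_)
    exact IsLocalization.map_units (CField k n) (⟨a, ha⟩ :
      nonZeroDivisors (MvPolynomial (Fin (n + 1)) k))
  let ρ : Sec k x →+* Q := IsLocalization.lift hu
  have hρB : ∀ b, ρ (algebraMap _ _ b) = g b := fun b => IsLocalization.lift_eq hu b
  have hρK : ∀ a, ρ (secMap k x a) = q (a ⊗ₜ 1) := by
    intro a
    have h1 : ρ.comp (secMap k x) = q.comp (Algebra.TensorProduct.includeLeft :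
          CField k n →ₐ[CField k n] CField k n ⊗[k] R).toRingHom := by
      refine IsLocalization.ringHom_ext (nonZeroDivisors (MvPolynomial (Fin (n + 1)) k)) ?_
      refine RingHom.ext fun a => ?_
      change ρ (secMap k x (algebraMap _ _ a)) = q (algebraMap _ (CField k n) a ⊗ₜ 1)
      rw [secMap_algebraMap, hρB, hg]
    exact DFunLike.congr_fun h1 a
  have hρ : ∀ z, ρ (secPsi k x z) = q z := by
    intro z
    induction z with
    | zero => rw [map_zero, map_zero, map_zero]
    | add a b ha hb => rw [map_add, map_add, map_add, ha, hb]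
    | tmul a r =>
      rw [secPsi_tmul, map_mul, hρK]
      have h2 : ρ (algebraMap R (Sec k x) r) = q (1 ⊗ₜ r) := by
        rw [← hgC, ← hρB]
        rfl
      rw [h2, ← map_mul, Algebra.TensorProduct.tmul_mul_tmul, mul_one, one_mul]
  rw [← hρ, hz, map_zero]

theorem mem_span_of_forall {P : Type} [CommRing P] (h z : P)
    (H : ∀ (Q : Type) [CommRing Q] (q : P →+* Q), q h = 0 → q z = 0) :
    z ∈ Ideal.span {h} :=
  Ideal.Quotient.eq_zero_iff_mem.1 (H _ (Ideal.Quotient.mk _)
    (Ideal.Quotient.eq_zero_iff_mem.2 (Ideal.mem_span_singleton_self _)))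

theorem secPsi_ker : RingHom.ker (secPsi k x) =
    Ideal.span {cc k n 0 ⊗ₜ 1 + ∑ j : Fin n, cc k n j.succ ⊗ₜ x j} := by
  apply le_antisymm
  · intro z hz
    rw [RingHom.mem_ker] at hz
    exact mem_span_of_forall _ _ fun Q _ q hq => secPsi_factor q hq z hz
  · rw [Ideal.span_singleton_le_iff_mem, RingHom.mem_ker, map_add, map_sum, secPsi_tmul,
      secMap_cc_zero, map_one, mul_one]
    simp_rw [secPsi_tmul]
    rw [neg_add_eq_zero]
    exact Finset.sum_congr rfl fun j _ => mul_comm _ _

/-- The generic fibre of the universal hyperplane is the generic hyperplane section. -/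
theorem isHyperplaneSection (k : Type) [Field k] {R : Type} [CommRing R] [Algebra k R] {n : ℕ}
    (x : Fin n → R) : IsHyperplaneSection k (CField k n) R (Sec k x) x (cc k n) :=
  ⟨secPsi_surjective, secPsi_ker⟩

end

end Pool.Agent.Helper15K1.TT
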