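import Pool.Agent.Helper15K1.TT.Bert5

/-!
# The dimension of the generic hyperplane section
-/

set_option autoImplicit false

open TensorProduct MvPolynomial Cardinal

namespace Pool.Agent.Helper15K1.TT

variable {k : Type} [Field k] {R : Type} [CommRing R] [Algebra k R] {n : ℕ} {x : Fin n → R}

theorem trdeg_sec [IsDomain R] [Algebra.FiniteType k R] {l : Fin n}
    (hl : Transcendental k (x l)) :
    Algebra.trdeg (CField k n) (Sec k x) + 1 = Algebra.trdeg k R := by
  have hd : IsDomain (Sec k x) := sec_isDomain hl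
  have _ : FaithfulSMul (CField k n) (Sec k x) := (faithfulSMul_iff_algebraMap_injective _ _).2
    (RingHom.injective (algebraMap (CField k n) (Sec k x)))
  have _ : FaithfulSMul k (CField k n) := (faithfulSMul_iff_algebraMap_injective _ _).2
    (RingHom.injective (algebraMap k (CField k n)))
  have _ : FaithfulSMul (MvPolynomial (Fin (n + 1)) k) (CField k n) :=
    (faithfulSMul_iff_algebraMap_injective _ _).2 (IsFractionRing.injective _ _)
  have _ : Algebra.IsAlgebraic (MvPolynomial (Fin (n + 1)) k) (CField k n) :=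
    IsLocalization.isAlgebraic _ (nonZeroDivisors (MvPolynomial (Fin (n + 1)) k))
  have h1 : Algebra.trdeg k (CField k n) + Algebra.trdeg (CField k n) (Sec k x) =
      Algebra.trdeg k (Sec k x) := trdeg_add_eq k (CField k n)
  have h2 : Algebra.trdeg k (MvPolynomial (Fin (n + 1)) k) +
      Algebra.trdeg (MvPolynomial (Fin (n + 1)) k) (CField k n) = Algebra.trdeg k (CField k n) :=
    trdeg_add_eq k (MvPolynomial (Fin (n + 1)) k)
  have h3 : Algebra.trdeg (MvPolynomial (Fin (n + 1)) k) (CField k n) = 0 := trdeg_eq_zero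
  have h4 : Algebra.trdeg k (MvPolynomial (Fin (n + 1)) k) = (n + 1 : ℕ) := by
    rw [MvPolynomial.trdeg_of_isDomain]
    simp
  have hinj : Function.Injective (algebraMap (MvPolynomial (Fin n) R) (Sec k x)) :=
    IsLocalization.injective _ (coefMonoid_le hl)
  have _ : FaithfulSMul (MvPolynomial (Fin n) R) (Sec k x) :=
    (faithfulSMul_iff_algebraMap_injective _ _).2 hinj
  have _ : FaithfulSMul R (Sec k x) := (faithfulSMul_iff_algebraMap_injective _ _).2 (by
    rw [IsScalarTower.algebraMap_eq R (MvPolynomial (Fin n) R) (Sec k x)]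
    exact hinj.comp (MvPolynomial.C_injective _ _))
  have _ : FaithfulSMul k R := (faithfulSMul_iff_algebraMap_injective _ _).2
    (algebraMap k R).injective
  have h5 : Algebra.trdeg k R + Algebra.trdeg R (MvPolynomial (Fin n) R) =
      Algebra.trdeg k (MvPolynomial (Fin n) R) := trdeg_add_eq k R
  have h6 : Algebra.trdeg R (MvPolynomial (Fin n) R) = n := by
    rw [MvPolynomial.trdeg_of_isDomain]
    simp
  have h7 : Algebra.trdeg k (MvPolynomial (Fin n) R) +
      Algebra.trdeg (MvPolynomial (Fin n) R) (Sec k x) = Algebra.trdeg k (Sec k x) :=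
    trdeg_add_eq k (MvPolynomial (Fin n) R)
  have _ : Algebra.IsAlgebraic (MvPolynomial (Fin n) R) (Sec k x) :=
    IsLocalization.isAlgebraic _ (coefMonoid k x)
  have h8 : Algebra.trdeg (MvPolynomial (Fin n) R) (Sec k x) = 0 := trdeg_eq_zero
  rw [h8, add_zero] at h7
  rw [h3, add_zero, h4] at h2
  rw [← h2, ← h7, ← h5, h6] at h1
  have h9 : (Algebra.trdeg (CField k n) (Sec k x) + 1) + (n : Cardinal) =
      Algebra.trdeg k R + n := by
    rw [← h1]
    push_cast
    ring
  exact Cardinal.add_nat_inj _ |>.1 h9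

end Pool.Agent.Helper15K1.TT
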