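import Mathlib

/-!
# The Tate conjecture for smooth varieties over finitely generated fields: definitions
-/

set_option autoImplicit false

open CategoryTheory AlgebraicGeometry TopologicalSpace Order TensorProduct

namespace Pool.Agent.Helper15K1.TA

/-- `K` is finitely generated as a field over its prime field. -/
def IsFG (K : Type) [Field K] : Prop :=
  ∃ s : Finset K, Subfield.closure (s : Set K) = ⊤

/-- `K` is a purely transcendental extension of `k` of finite transcendence degree:
`K = k(t_1, …, t_m)` with algebraically independent `t_j`. -/
def IsRational (k K : Type) [Field k] [Field K] [Algebra k K] : Prop :=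
  ∃ (m : ℕ) (t : Fin m → K), AlgebraicIndependent k t ∧
    IntermediateField.adjoin k (Set.range t) = ⊤

/-- Smooth connected varieties over the field `k`: smooth separated integral schemes of finite type
over `k`. (A connected smooth variety is integral. It need be neither proper nor geometrically
connected.) -/
structure SmVar (k : Type) [Field k] where
  /-- the scheme -/
  X : Scheme.{0}
  /-- the structure morphism -/
  str : X ⟶ Spec (.of k)
  [smooth : Smooth str]
  [separated : IsSeparated str]
  [quasiCompact : QuasiCompact str]
  [integral : IsIntegral X]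

attribute [instance] SmVar.smooth SmVar.separated SmVar.quasiCompact SmVar.integral

/-- The ring of functions on `V`. -/
def SmVar.Fn {k : Type} [Field k] (V : SmVar k) : Type := Γ(V.X, ⊤)

noncomputable instance {k : Type} [Field k] (V : SmVar k) : CommRing V.Fn :=
  CommRingCat.commRing Γ(V.X, ⊤)

/-- The constant functions. -/
noncomputable def SmVar.const {k : Type} [Field k] (V : SmVar k) : k →+* V.Fn :=
  ((Scheme.ΓSpecIso (.of k)).inv ≫ V.str.appTop).hom

/-- The functions on `V` form an algebra over `k`. -/
noncomputable instance {k : Type} [Field k] (V : SmVar k) : Algebra k V.Fn :=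
  V.const.toAlgebra

/-- The field of rational functions on `V`. -/
def SmVar.RatFn {k : Type} [Field k] (V : SmVar k) : Type := V.X.functionField

noncomputable instance {k : Type} [Field k] (V : SmVar k) : CommRing V.RatFn :=
  CommRingCat.commRing V.X.functionField

/-- The rational function defined by a function. -/
noncomputable def SmVar.toRatFn {k : Type} [Field k] (V : SmVar k) : V.Fn →+* V.RatFn :=
  (V.X.presheaf.germ ⊤ (genericPoint V.X) trivial).hom

/-- The rational functions on `V` form an algebra over `k`. -/
noncomputable instance {k : Type} [Field k] (V : SmVar k) : Algebra k V.RatFn :=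
  (V.toRatFn.comp V.const).toAlgebra

/-- The dimension: the transcendence degree of the field of rational functions. -/
noncomputable def SmVar.dim {k : Type} [Field k] (V : SmVar k) : ℕ :=
  (Algebra.trdeg k V.RatFn).toNat

/-- Morphisms of the variety `V'` over the extension `k'` of `k` to the variety `V` over `k`:
morphisms of schemes `V' ⟶ V` over `Spec k' ⟶ Spec k`. (For `k' = k` the morphisms over `k`.) -/
structure Mor {k k' : Type} [Field k] [Field k'] [Algebra k k'] (V' : SmVar k') (V : SmVar k) where
  /-- the morphism of schemes -/
  hom : V'.X ⟶ V.X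
  comm : hom ≫ V.str = V'.str ≫ Spec.map (CommRingCat.ofHom (algebraMap k k'))

/-- The morphism induces isomorphisms of the local rings: for example open immersions, and the
embedding of the generic fibre of a morphism. -/
def Mor.IsLocal {k k' : Type} [Field k] [Field k'] [Algebra k k'] {V' : SmVar k'} {V : SmVar k}
    (g : Mor V' V) : Prop :=
  ∀ y : V'.X, IsIso (g.hom.stalkMap y)

/-- `π : J ⟶ V` is a bundle of affine spaces: locally on `V`, for the Zariski topology, it is
isomorphic to the projection of the product with an affine space. -/
def Mor.IsAffineBundle {k : Type} [Field k] {J V : SmVar k} (π : Mor J V) : Prop :=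
  ∃ n : ℕ, ∀ x : V.X, ∃ U : V.X.Opens, x ∈ U ∧
    Nonempty (Over.mk (π.hom ∣_ U) ≅ Over.mk (𝔸(Fin n; (U : Scheme.{0})) ↘ (U : Scheme.{0})))

/-- There is a bundle of affine spaces over `V` with an affine total space. By Jouanolou and
Thomason this is so for all smooth separated varieties over a field. -/
def SmVar.HasAffineBundle {k : Type} [Field k] (V : SmVar k) : Prop :=
  ∃ (J : SmVar k) (π : Mor J V), IsAffine J.X ∧ π.IsAffineBundle

/-- The base change `k' ⊗ R` of the algebra `R` over `k` to the extension `k'` of `k`. -/
def BaseChange (k k' R : Type) [Field k] [Field k'] [Algebra k k'] [CommRing R] [Algebra k R] :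
    Type :=
  k' ⊗[k] R

section

variable (k k' R : Type) [Field k] [Field k'] [Algebra k k'] [CommRing R] [Algebra k R]

noncomputable instance : CommRing (BaseChange k k' R) := Algebra.TensorProduct.instCommRing

noncomputable instance : Algebra k' (BaseChange k k' R) := Algebra.TensorProduct.leftAlgebra

variable {k' R}

/-- The element `a ⊗ r` of `k' ⊗ R`. -/
def tens (a : k') (r : R) : BaseChange k k' R :=
  a ⊗ₜ[k] r

/-- The equation `c_0 + c_1 x_1 + … + c_n x_n` of the hyperplane with the coefficients `c`. -/
noncomputable def hyperplane {n : ℕ} (x : Fin n → R) (c : Fin (n + 1) → k') : BaseChange k k' R :=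
  tens k (c 0) 1 + ∑ j : Fin n, tens k (c j.succ) (x j)

end

/-- `S` is the quotient of `P` by the principal ideal of `h`. -/
def IsCutOut {P S : Type} [CommRing P] [CommRing S] (φ : P →+* S) (h : P) : Prop :=
  Function.Surjective φ ∧ RingHom.ker φ = Ideal.span {h}

/-- Let `R` be an algebra over `k` and `S` an algebra over the extension `k'` of `k`. Then `S` is the
ring of functions on the generic hyperplane section of `Spec R`: there are generators `x_1, …, x_n`
of the algebra `R`, and algebraically independent generators `c_0, …, c_n` of the field `k'` over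
`k`, such that `S` is, by an extension `φ` of the map `f`, the quotient of `k' ⊗ R` by the principal
ideal of `c_0 + c_1 x_1 + … + c_n x_n`. -/
def IsGenericHyperplane (k k' : Type) {R S : Type} [Field k] [Field k'] [Algebra k k']
    [CommRing R] [Algebra k R] [CommRing S] [Algebra k' S] (f : R →+* S) : Prop :=
  ∃ (n : ℕ) (x : Fin n → R) (c : Fin (n + 1) → k'),
    Algebra.adjoin k (Set.range x) = ⊤ ∧ AlgebraicIndependent k c ∧
    IntermediateField.adjoin k (Set.range c) = ⊤ ∧
    ∃ φ : BaseChange k k' R →ₐ[k'] S, (∀ r, φ (tens k 1 r) = f r) ∧
      IsCutOut φ.toRingHom (hyperplane k x c)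

/-- The map on functions. -/
noncomputable def Mor.comorphism {k k' : Type} [Field k] [Field k'] [Algebra k k'] {Y : SmVar k'}
    {V : SmVar k} (f : Mor Y V) : V.Fn →+* Y.Fn :=
  f.hom.appTop.hom

/-- `f : Y ⟶ V` is the generic hyperplane section of an affine variety `V ⊆ 𝔸ⁿ` over `k`: the
coordinates `x_1, …, x_n` generate the algebra of functions on `V`; the field `k'` is generated over
`k` by the algebraically independent elements `c_0, …, c_n`; and `Y` is the closed subscheme of
`V ⊗ k'` with the equation `c_0 + c_1 x_1 + … + c_n x_n = 0`. -/
def Mor.IsGenericSection {k k' : Type} [Field k] [Field k'] [Algebra k k'] {Y : SmVar k'}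
    {V : SmVar k} (f : Mor Y V) : Prop :=
  IsAffine V.X ∧ IsAffine Y.X ∧ IsGenericHyperplane k k' f.comorphism

/-- The absolute Galois group: the automorphisms over `k` of an algebraic closure. (They are
determined by their restrictions to the separable closure.) -/
def AbsGal (k : Type) [Field k] : Type := Gal(AlgebraicClosure k/k)

noncomputable instance (k : Type) [Field k] : Group (AbsGal k) := AlgEquiv.aut

/-- The data of a cohomology theory with coefficients in the field `Λ` for smooth varieties, with
the Galois action, the classes of cycles and the pull-backs. In the intended case `Λ = ℚ_ℓ` and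
`H V i = H^{2i}(V ⊗ k̄, ℚ_ℓ(i))`, for a variety `V` over a field `k` of characteristic different
from `ℓ`. -/
structure Theory (Λ : Type) [Field Λ] where
  /-- `H^{2i}(V ⊗ k̄, ℚ_ℓ(i))` -/
  H : ∀ {k : Type} [Field k], SmVar k → ℕ → Type
  [acg : ∀ {k : Type} [Field k] (V : SmVar k) (i : ℕ), AddCommGroup (H V i)]
  [mod : ∀ {k : Type} [Field k] (V : SmVar k) (i : ℕ), Module Λ (H V i)]
  /-- the action of the Galois group -/
  act : ∀ {k : Type} [Field k] (V : SmVar k) (i : ℕ), Representation Λ (AbsGal k) (H V i)
  /-- the class of the closure of the point `x` of codimension `i` (there is no condition on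
  `cl V i x` if the codimension of `x` is not `i`) -/
  cl : ∀ {k : Type} [Field k] (V : SmVar k) (i : ℕ), V.X → H V i
  /-- the pull-back by a morphism `V' ⟶ V` over an extension `k'` of `k` (for a fixed embedding
  of the algebraic closures) -/
  pull : ∀ {k k' : Type} [Field k] [Field k'] [Algebra k k'] {V' : SmVar k'} {V : SmVar k},
    Mor V' V → ∀ i : ℕ, H V i →ₗ[Λ] H V' i

attribute [instance] Theory.acg Theory.mod

namespace Theory

variable {Λ : Type} [Field Λ] (D : Theory Λ)

/-- `x` is a Tate class: it is invariant under the Galois group. -/
def IsTate {k : Type} [Field k] (V : SmVar k) (i : ℕ) (x : D.H V i) : Prop :=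
  ∀ σ, D.act V i σ x = x

/-- The linear combinations of the classes of the integral closed subschemes of codimension `i`: the
image of `CH^i(V) ⊗ Λ`. (The integral closed subschemes are the closures of the points, and the
codimension is the length of the longest chain of generizations.) -/
def alg {k : Type} [Field k] (V : SmVar k) (i : ℕ) : Submodule Λ (D.H V i) :=
  Submodule.span Λ {c | ∃ x : V.X, coheight x = i ∧ c = D.cl V i x}

/-- The Tate conjecture `T^i(V)`. -/
def TateConj {k : Type} [Field k] (V : SmVar k) (i : ℕ) : Prop :=
  ∀ x, D.IsTate V i x → x ∈ D.alg V i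

/-- Functoriality. -/
def Functorial : Prop :=
  ∀ {k k' : Type} [Field k] [Field k'] [Algebra k k'], IsFG k →
    ∀ {Y : SmVar k'} {W V : SmVar k} (g : Mor Y W) (π : Mor W V) (f : Mor Y V),
      f.hom = g.hom ≫ π.hom → ∀ (i : ℕ) (x : D.H V i), D.pull f i x = D.pull g i (D.pull π i x)

/-- The pull-backs are compatible with the Galois actions: invariant classes have invariant
pull-backs. -/
def PullTate : Prop :=
  ∀ {k k' : Type} [Field k] [Field k'] [Algebra k k'], IsFG k → IsFG k' →
    ∀ {V' : SmVar k'} {V : SmVar k} (g : Mor V' V) (i : ℕ) (x : D.H V i), D.IsTate V i x →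
      D.IsTate V' i (D.pull g i x)

/-- If `g` is local (for example an open immersion or the embedding of the generic fibre), it is
flat and injective, and the pull-back of the closure of `g y` is the closure of `y`. -/
def PullCycles : Prop :=
  ∀ {k k' : Type} [Field k] [Field k'] [Algebra k k'], IsFG k → IsFG k' →
    ∀ {V' : SmVar k'} {V : SmVar k} (g : Mor V' V), g.IsLocal → ∀ (i : ℕ) (y : V'.X),
      coheight y = i → D.pull g i (D.cl V i (g.hom y)) = D.cl V' i y

/-- Homotopy invariance of the cohomology. -/
def HomotopyInvariant : Prop :=
  ∀ {k : Type} [Field k], IsFG k → ∀ {J V : SmVar k} (π : Mor J V),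
    π.IsAffineBundle → ∀ i, Function.Bijective (D.pull π i)

/-- Homotopy invariance of the Chow groups: the pull-back `CH^i(V) ⟶ CH^i(J)` is surjective for the
bundles of affine spaces `J ⟶ V`. -/
def HomotopyInvariantCycles : Prop :=
  ∀ {k : Type} [Field k], IsFG k → ∀ {J V : SmVar k} (π : Mor J V),
    π.IsAffineBundle → ∀ i, D.alg J i ≤ (D.alg V i).map (D.pull π i)

/-- Artin: the cohomology of an affine variety vanishes in the degrees larger than the
dimension. -/
def ArtinVanishing : Prop :=
  ∀ {k : Type} [Field k], IsFG k → ∀ (V : SmVar k), IsAffine V.X → ∀ i : ℕ,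
    V.dim < 2 * i → ∀ x : D.H V i, x = 0

/-- The weak Lefschetz theorem for the generic hyperplane section `Y` of an affine variety `V` of
dimension `d` (Artin, Deligne): the restriction `H^j(V) ⟶ H^j(Y)` is injective for `j < d`. -/
def WeakLefschetz : Prop :=
  ∀ {k k' : Type} [Field k] [Field k'] [Algebra k k'], IsFG k →
    ∀ {Y : SmVar k'} {V : SmVar k} (f : Mor Y V), f.IsGenericSection → ∀ i : ℕ,
      2 * i < V.dim → Function.Injective (D.pull f i)

/-- The properties of étale cohomology and of the Chow groups of smooth varieties over finitely
generated fields which are used. -/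
structure Standard : Prop where
  pull_comp : D.Functorial
  pull_tate : D.PullTate
  pull_cl : D.PullCycles
  bundle_bijective : D.HomotopyInvariant
  bundle_alg : D.HomotopyInvariantCycles
  artin : D.ArtinVanishing
  lefschetz : D.WeakLefschetz

end Theory

end Pool.Agent.Helper15K1.TA
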