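import Pool.Agent.Helper15K1.TT.DefsA
import Pool.Agent.Helper15K1.TT.Bert6

/-!
# The generic hyperplane section of an affine variety: existence
-/

set_option autoImplicit false

open CategoryTheory AlgebraicGeometry TopologicalSpace Order TensorProduct Limits

namespace Pool.Agent.Helper15K1.TA

open TT

/-- The functions on `V` form an algebra over `k`. -/
noncomputable instance {k : Type} [Field k] (V : SmVar k) : Algebra k Γ(V.X, ⊤) :=
  V.const.toAlgebra

/-- The rational functions on `V` form an algebra over `k`. -/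
noncomputable instance {k : Type} [Field k] (V : SmVar k) : Algebra k V.X.functionField :=
  (V.toRatFn.comp V.const).toAlgebra

section Affine

variable {k : Type} [Field k]

/-- The structure morphism of an affine variety, on functions. -/
lemma algebraMap_def (V : SmVar k) : algebraMap k Γ(V.X, ⊤) =
    V.str.appTop.hom.comp (Scheme.ΓSpecIso (.of k)).inv.hom := rfl

/-- The algebra of functions on an affine variety is smooth. -/
lemma smooth_functions (V : SmVar k) [IsAffine V.X] : Algebra.Smooth k Γ(V.X, ⊤) := by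
  have h1 : RingHom.Smooth V.str.appTop.hom :=
    (HasRingHomProperty.iff_of_isAffine (P := @Smooth)).1 V.smooth
  have h2 : RingHom.Smooth (Scheme.ΓSpecIso (.of k)).inv.hom :=
    RingHom.Smooth.of_bijective (ConcreteCategory.bijective_of_isIso (Scheme.ΓSpecIso (.of k)).inv)
  exact h2.comp h1

/-- The dimension of an affine variety is the transcendence degree of the algebra of functions. -/
lemma dim_eq (V : SmVar k) [IsAffine V.X] : V.dim = (Algebra.trdeg k Γ(V.X, ⊤)).toNat := by
  have hn : Nonempty V.X := inferInstance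
  have _ : Nonempty (⊤ : V.X.Opens) := ⟨⟨hn.some, trivial⟩⟩
  have h1 : IsFractionRing Γ(V.X, ⊤) V.X.functionField :=
    functionField_isFractionRing_of_isAffineOpen V.X ⊤ (isAffineOpen_top V.X)
  have h2 : IsScalarTower k Γ(V.X, ⊤) V.X.functionField :=
    IsScalarTower.of_algebraMap_eq fun a => rfl
  have _ : FaithfulSMul k Γ(V.X, ⊤) := (faithfulSMul_iff_algebraMap_injective _ _).2
    (RingHom.injective (algebraMap k Γ(V.X, ⊤)))
  have _ : FaithfulSMul Γ(V.X, ⊤) V.X.functionField :=
    (faithfulSMul_iff_algebraMap_injective _ _).2 (IsFractionRing.injective _ _)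
  have h3 : Algebra.trdeg k Γ(V.X, ⊤) + Algebra.trdeg Γ(V.X, ⊤) V.X.functionField =
      Algebra.trdeg k V.X.functionField := trdeg_add_eq k Γ(V.X, ⊤)
  have _ : Algebra.IsAlgebraic Γ(V.X, ⊤) V.X.functionField :=
    IsLocalization.isAlgebraic _ (nonZeroDivisors Γ(V.X, ⊤))
  have h4 : Algebra.trdeg Γ(V.X, ⊤) V.X.functionField = 0 := trdeg_eq_zero
  rw [h4, add_zero] at h3
  rw [h3]
  rfl

/-- The structure morphism of an affine variety. -/
lemma isoSpec_inv_str (V : SmVar k) [IsAffine V.X] : V.X.isoSpec.inv ≫ V.str =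
    Spec.map (CommRingCat.ofHom (algebraMap k Γ(V.X, ⊤))) := by
  rw [← Scheme.isoSpec_inv_naturality V.str, Scheme.isoSpec_Spec_inv, ← Spec.map_comp]
  rfl

/-- The projection of a trivial bundle is a bundle of affine spaces. -/
lemma isAffineBundle_of_iso {W V : SmVar k} (π : Mor W V) (n : ℕ) (e : W.X ≅ 𝔸(Fin n; V.X))
    (he : π.hom = e.hom ≫ (𝔸(Fin n; V.X) ↘ V.X)) : π.IsAffineBundle := by
  refine ⟨n, fun x => ⟨⊤, trivial, ⟨?_⟩⟩⟩
  set U : V.X.Opens := ⊤ with hU
  have h1 := isPullback_morphismRestrict π.hom U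
  have h2 := AffineSpace.isPullback_map (n := Fin n) U.ι
  have h3 : IsPullback (𝔸(Fin n; (U : Scheme.{0})) ↘ (U : Scheme.{0}))
      (AffineSpace.map (Fin n) U.ι ≫ e.inv) U.ι π.hom := by
    refine h2.flip.of_iso (Iso.refl _) (Iso.refl _) e.symm (Iso.refl _) ?_ ?_ ?_ ?_
    · simp
    · simp
    · simp
    · simp [he]
  exact Over.isoMk (h1.isoIsPullback _ _ h3) (h1.isoIsPullback_hom_fst _ _ h3)

end Affine

section Construction

variable {k : Type} [Field k] (V : SmVar k) [IsAffine V.X] (n : ℕ)

/-- The product with an affine space. -/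
noncomputable def prodX : Scheme.{0} := Spec (.of (MvPolynomial (Fin n) Γ(V.X, ⊤)))

/-- The projection. -/
noncomputable def prodMap : prodX V n ⟶ V.X :=
  Spec.map (CommRingCat.ofHom (MvPolynomial.C (σ := Fin n) (R := Γ(V.X, ⊤)))) ≫ V.X.isoSpec.inv

instance : IsAffine (prodX V n) := by unfold prodX; infer_instance

instance : Smooth (prodMap V n) := by
  have h1 : Smooth (Spec.map (CommRingCat.ofHom
      (MvPolynomial.C (σ := Fin n) (R := Γ(V.X, ⊤))))) := by
    rw [HasRingHomProperty.Spec_iff (P := @Smooth)]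
    change RingHom.Smooth (algebraMap Γ(V.X, ⊤) (MvPolynomial (Fin n) Γ(V.X, ⊤)))
    rw [RingHom.smooth_algebraMap]
    have h1 : Algebra.FormallySmooth Γ(V.X, ⊤) (MvPolynomial (Fin n) Γ(V.X, ⊤)) := inferInstance
    have h2 : Algebra.FinitePresentation Γ(V.X, ⊤) (MvPolynomial (Fin n) Γ(V.X, ⊤)) :=
      inferInstance
    exact ⟨h1, h2⟩
  have h2 : Smooth V.X.isoSpec.inv := inferInstance
  exact MorphismProperty.comp_mem @Smooth _ _ h1 h2

/-- The product with an affine space. -/
noncomputable def prodVar : SmVar k :=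
  have : IsIntegral (prodX V n) := by unfold prodX; infer_instance
  { X := prodX V n
    str := prodMap V n ≫ V.str }

/-- The projection. -/
noncomputable def prodMor : Mor (prodVar V n) V where
  hom := prodMap V n
  comm := by
    have : CommRingCat.ofHom (algebraMap k k) = 𝟙 (CommRingCat.of k) := rfl
    rw [this, Spec.map_id, Category.comp_id]
    rfl

lemma prodMor_isAffineBundle : (prodMor V n).IsAffineBundle := by
  refine isAffineBundle_of_iso _ n (AffineSpace.isoOfIsAffine (Fin n) V.X).symm ?_
  exact (AffineSpace.isoOfIsAffine_inv_over (n := Fin n) (S := V.X)).symm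

end Construction

end Pool.Agent.Helper15K1.TA
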