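import Pool.Agent.Helper15K1.TT.GeoA

/-!
# The generic hyperplane section of an affine variety: construction
-/

set_option autoImplicit false

open CategoryTheory AlgebraicGeometry TopologicalSpace Order TensorProduct Limits

namespace Pool.Agent.Helper15K1.TA

open TT

/-- The maps of local rings of a localisation are isomorphisms. -/
lemma isIso_stalkMap_of_isLocalization {B S : Type} [CommRing B] [CommRing S] [Algebra B S]
    (M : Submonoid B) [IsLocalization M S] (y : Spec (.of S)) :
    IsIso ((Spec.map (CommRingCat.ofHom (algebraMap B S))).stalkMap y) := by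
  let J : Ideal S := PrimeSpectrum.asIdeal y
  have hJ : J.IsPrime := PrimeSpectrum.isPrime y
  let I : Ideal B := J.comap (algebraMap B S)
  have hI : I.IsPrime := Ideal.comap_isPrime _ _
  have h1 : IsLocalization.AtPrime (Localization.AtPrime J) I :=
    IsLocalization.isLocalization_isLocalization_atPrime_isLocalization M
      (Localization.AtPrime J) J
  have h2 : Localization.localRingHom I J (algebraMap B S) rfl =
      ((IsLocalization.algEquiv I.primeCompl (Localization.AtPrime I)
        (Localization.AtPrime J)).toAlgHom.toRingHom) := by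
    refine IsLocalization.ringHom_ext I.primeCompl ?_
    refine RingHom.ext fun b => ?_
    rw [RingHom.comp_apply, RingHom.comp_apply, Localization.localRingHom_to_map]
    exact ((IsLocalization.algEquiv I.primeCompl (Localization.AtPrime I)
        (Localization.AtPrime J)).commutes b).symm
  have h3 : Function.Bijective (Localization.localRingHom I J (algebraMap B S) rfl) := by
    rw [h2]
    exact (IsLocalization.algEquiv I.primeCompl (Localization.AtPrime I)
        (Localization.AtPrime J)).bijective
  have h4 : IsIso (CommRingCat.ofHom (Localization.localRingHom I J (algebraMap B S) rfl)) := by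
    rw [ConcreteCategory.isIso_iff_bijective]
    exact h3
  exact ((MorphismProperty.isomorphisms CommRingCat).arrow_mk_iso_iff
    (Scheme.arrowStalkMapSpecIso (CommRingCat.ofHom (algebraMap B S)) y)).2 h4

section Construction

variable {k : Type} [Field k] (V : SmVar k) [IsAffine V.X] {n : ℕ} (x : Fin n → Γ(V.X, ⊤))

/-- The scheme. -/
noncomputable def secX : Scheme.{0} := Spec (.of (Sec k x))

/-- The structure morphism. -/
noncomputable def secStr : secX V x ⟶ Spec (.of (CField k n)) :=
  Spec.map (CommRingCat.ofHom (algebraMap (CField k n) (Sec k x)))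

/-- The embedding in the universal hyperplane. -/
noncomputable def secTot : secX V x ⟶ prodX V n :=
  Spec.map (CommRingCat.ofHom (algebraMap (MvPolynomial (Fin n) Γ(V.X, ⊤)) (Sec k x)))

lemma secTot_comp' : (Spec.map (CommRingCat.ofHom
    (algebraMap (MvPolynomial (Fin n) Γ(V.X, ⊤)) (Sec k x))) ≫
      Spec.map (CommRingCat.ofHom (MvPolynomial.C (σ := Fin n) (R := Γ(V.X, ⊤)))) ≫
        V.X.isoSpec.inv) ≫ V.str =
    Spec.map (CommRingCat.ofHom (algebraMap (CField k n) (Sec k x))) ≫
      Spec.map (CommRingCat.ofHom (algebraMap k (CField k n))) := by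
  rw [Category.assoc, Category.assoc, isoSpec_inv_str, ← Spec.map_comp, ← Spec.map_comp,
    ← Spec.map_comp]
  congr 1
  ext a
  change algebraMap (MvPolynomial (Fin n) Γ(V.X, ⊤)) (Sec k x)
    (MvPolynomial.C (algebraMap k Γ(V.X, ⊤) a)) = algebraMap (CField k n) (Sec k x)
      (algebraMap k (CField k n) a)
  rw [← IsScalarTower.algebraMap_apply k (CField k n) (Sec k x)]
  rfl

lemma secTot_comp : (secTot V x ≫ prodMap V n) ≫ V.str =
    secStr V x ≫ Spec.map (CommRingCat.ofHom (algebraMap k (CField k n))) :=
  secTot_comp' V x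

lemma smooth_Spec {A B : Type} [CommRing A] [CommRing B] [Algebra A B] (h : Algebra.Smooth A B) :
    Smooth (Spec.map (CommRingCat.ofHom (algebraMap A B))) := by
  rw [HasRingHomProperty.Spec_iff (P := @Smooth)]
  exact RingHom.smooth_algebraMap.2 h

variable (hx : Algebra.adjoin k (Set.range x) = ⊤) {l : Fin n} (hl : Transcendental k (x l))

/-- The generic hyperplane section. -/
noncomputable def secVar : SmVar (CField k n) :=
  have : IsDomain (Sec k x) := sec_isDomain hl
  have : IsIntegral (secX V x) := by unfold secX; infer_instance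
  have : Algebra.Smooth k Γ(V.X, ⊤) := smooth_functions V
  have h1 : Algebra.Smooth (CField k n) (Sec k x) :=
    (isHyperplaneSection k x).smooth hx (cc_algebraicIndependent k n)
  have : Smooth (secStr V x) := smooth_Spec h1
  have : IsSeparated (secStr V x) :=
    inferInstanceAs (IsSeparated (Spec.map (CommRingCat.ofHom (algebraMap (CField k n) (Sec k x)))))
  have : QuasiCompact (secStr V x) :=
    inferInstanceAs
      (QuasiCompact (Spec.map (CommRingCat.ofHom (algebraMap (CField k n) (Sec k x)))))
  { X := secX V x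
    str := secStr V x }

instance : IsAffine (secVar V x hx hl).X := by
  change IsAffine (Spec _)
  infer_instance

/-- The embedding in the universal hyperplane. -/
noncomputable def secMorTot : Mor (secVar V x hx hl) (prodVar V n) where
  hom := secTot V x
  comm := (Category.assoc _ _ _).symm.trans (secTot_comp V x)

lemma secMorTot_isLocal : (secMorTot V x hx hl).IsLocal := by
  intro y
  exact isIso_stalkMap_of_isLocalization (coefMonoid k x) (S := Sec k x) y

/-- The map from the generic hyperplane section. -/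
noncomputable def secMor : Mor (secVar V x hx hl) V where
  hom := secTot V x ≫ prodMap V n
  comm := secTot_comp V x

/-- The functions on the generic hyperplane section. -/
noncomputable def secEquiv : Sec k x ≃ₐ[CField k n] Γ((secVar V x hx hl).X, ⊤) :=
  AlgEquiv.ofRingEquiv (f := (Scheme.ΓSpecIso (.of (Sec k x))).symm.commRingCatIsoToRingEquiv)
    (fun a => by
      have h1 := Scheme.ΓSpecIso_inv_naturality
        (CommRingCat.ofHom (algebraMap (CField k n) (Sec k x)))
      exact congrArg (fun φ : CommRingCat.of (CField k n) ⟶ Γ(Spec (.of (Sec k x)), ⊤) => φ a) h1)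

omit hx hl in
lemma isoSpec_inv_appTop : V.X.isoSpec.inv.appTop = (Scheme.ΓSpecIso Γ(V.X, ⊤)).inv := by
  have h1 : V.X.isoSpec.hom.appTop = (Scheme.ΓSpecIso Γ(V.X, ⊤)).hom := Scheme.toSpecΓ_appTop V.X
  have h2 : (V.X.isoSpec.inv ≫ V.X.isoSpec.hom).appTop = 𝟙 _ := by
    rw [Iso.inv_hom_id]
    rfl
  rw [Scheme.Hom.comp_appTop, h1] at h2
  rw [← cancel_epi (Scheme.ΓSpecIso Γ(V.X, ⊤)).hom]
  exact h2.trans (Iso.hom_inv_id _).symm

omit hx hl in
lemma secTot_appTop : (Spec.map (CommRingCat.ofHom
    (algebraMap (MvPolynomial (Fin n) Γ(V.X, ⊤)) (Sec k x))) ≫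
      Spec.map (CommRingCat.ofHom (MvPolynomial.C (σ := Fin n) (R := Γ(V.X, ⊤)))) ≫
        V.X.isoSpec.inv).appTop =
    CommRingCat.ofHom (MvPolynomial.C (σ := Fin n) (R := Γ(V.X, ⊤))) ≫
      CommRingCat.ofHom (algebraMap (MvPolynomial (Fin n) Γ(V.X, ⊤)) (Sec k x)) ≫
        (Scheme.ΓSpecIso (.of (Sec k x))).inv := by
  rw [Scheme.Hom.comp_appTop, Scheme.Hom.comp_appTop, isoSpec_inv_appTop]
  rw [Scheme.ΓSpecIso_inv_naturality]
  have h1 := Scheme.ΓSpecIso_inv_naturality
    (CommRingCat.ofHom (MvPolynomial.C (σ := Fin n) (R := Γ(V.X, ⊤))))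
  rw [← Category.assoc (CommRingCat.ofHom MvPolynomial.C)]
  exact congrArg (· ≫ _) h1.symm

lemma secMor_appTop (r : Γ(V.X, ⊤)) :
    (secMor V x hx hl).hom.appTop r = secEquiv V x hx hl (algebraMap Γ(V.X, ⊤) (Sec k x) r) :=
  congrArg (fun φ : Γ(V.X, ⊤) ⟶ Γ(Spec (.of (Sec k x)), ⊤) => φ r) (secTot_appTop V x)

lemma ker_comp : RingHom.ker ((secEquiv V x hx hl).toAlgHom.comp (secPsi k x)).toRingHom =
    Ideal.span {cc k n 0 ⊗ₜ 1 + ∑ j : Fin n, cc k n j.succ ⊗ₜ x j} := by
  rw [← secPsi_ker]
  ext z
  rw [RingHom.mem_ker, RingHom.mem_ker]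
  change secEquiv V x hx hl (secPsi k x z) = 0 ↔ _
  exact EmbeddingLike.map_eq_zero_iff

lemma comp_tmul (r : Γ(V.X, ⊤)) :
    ((secEquiv V x hx hl).toAlgHom.comp (secPsi k x)) (1 ⊗ₜ r) =
      (secMor V x hx hl).hom.appTop r := by
  rw [secMor_appTop]
  change secEquiv V x hx hl (secPsi k x (1 ⊗ₜ r)) = _
  rw [secPsi_tmul, map_one, one_mul]

lemma secMor_isGenericSection : (secMor V x hx hl).IsGenericSection := by
  refine ⟨inferInstance, inferInstance, n, x, cc k n, hx, cc_algebraicIndependent k n,
    adjoin_cc k n, (secEquiv V x hx hl).toAlgHom.comp (secPsi k x), fun r => ?_, ?_, ?_⟩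
  · exact comp_tmul V x hx hl r
  · exact (secEquiv V x hx hl).surjective.comp secPsi_surjective
  · exact ker_comp V x hx hl

lemma dim_secVar : (secVar V x hx hl).dim + 1 = V.dim := by
  have h0 : Algebra.Smooth k Γ(V.X, ⊤) := smooth_functions V
  have h1 : Algebra.FiniteType k Γ(V.X, ⊤) := inferInstance
  have h2 := trdeg_sec (k := k) (x := x) hl
  have h3 : Algebra.trdeg (CField k n) Γ((secVar V x hx hl).X, ⊤) =
      Algebra.trdeg (CField k n) (Sec k x) := (secEquiv V x hx hl).symm.trdeg_eq
  have h4 : Algebra.trdeg k Γ(V.X, ⊤) < Cardinal.aleph0 := trdeg_lt_aleph0_of_finiteType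
  rw [dim_eq, dim_eq, h3, ← h2]
  rw [← h2] at h4
  rw [Cardinal.toNat_add, Cardinal.one_toNat]
  · exact lt_of_le_of_lt (self_le_add_right _ _) h4
  · exact Cardinal.one_lt_aleph0

end Construction

/-- Generators of the algebra of functions. -/
lemma exists_generators {k : Type} [Field k] (V : SmVar k) [IsAffine V.X] :
    ∃ (n : ℕ) (x : Fin n → Γ(V.X, ⊤)), Algebra.adjoin k (Set.range x) = ⊤ := by
  have h0 : Algebra.Smooth k Γ(V.X, ⊤) := smooth_functions V
  have h1 : Algebra.FiniteType k Γ(V.X, ⊤) := inferInstance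
  obtain ⟨s, hs⟩ := h1.out
  refine ⟨s.card, fun j => (s.equivFin.symm j : Γ(V.X, ⊤)), ?_⟩
  rw [← hs]
  congr 1
  ext y
  constructor
  · rintro ⟨j, rfl⟩
    exact (s.equivFin.symm j).2
  · intro hy
    exact ⟨s.equivFin ⟨y, hy⟩, by simp⟩

/-- Some coordinate is transcendental if the dimension is positive. -/
lemma exists_transcendental {k : Type} [Field k] (V : SmVar k) [IsAffine V.X] (hd : 0 < V.dim)
    {n : ℕ} (x : Fin n → Γ(V.X, ⊤)) (hx : Algebra.adjoin k (Set.range x) = ⊤) :
    ∃ l, Transcendental k (x l) := by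
  by_contra hne
  push Not at hne
  have h1 : Algebra.IsAlgebraic k Γ(V.X, ⊤) := by
    refine ⟨fun y => ?_⟩
    have h2 : (Algebra.adjoin k (Set.range x)).IsAlgebraic := by
      rw [Algebra.isAlgebraic_adjoin_iff]
      rintro _ ⟨l, rfl⟩
      have h3 := hne l
      unfold Transcendental at h3
      push Not at h3
      exact h3
    exact h2 y (hx ▸ (trivial : y ∈ (⊤ : Subalgebra k Γ(V.X, ⊤))))
  rw [dim_eq, trdeg_eq_zero] at hd
  simp at hd

/-- **Bertini's theorem for the generic hyperplane section.** An affine smooth variety of positive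
dimension has a generic hyperplane section; it is a smooth (integral) variety, its dimension is
less by one, and it embeds in a trivial bundle over the given variety by a local morphism. -/
theorem exists_genericSection {k : Type} [Field k] (V : SmVar k) (hV : IsAffine V.X)
    (hd : 0 < V.dim) :
    ∃ (k' : Type) (_ : Field k') (_ : Algebra k k') (Y : SmVar k') (W : SmVar k) (f : Mor Y V)
      (g : Mor Y W) (π : Mor W V), IsRational k k' ∧ f.IsGenericSection ∧ g.IsLocal ∧
        π.IsAffineBundle ∧ f.hom = g.hom ≫ π.hom ∧ Y.dim + 1 = V.dim := by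
  obtain ⟨n, x, hx⟩ := exists_generators V
  obtain ⟨l, hl⟩ := exists_transcendental V hd x hx
  exact ⟨CField k n, inferInstance, inferInstance, secVar V x hx hl, prodVar V n,
    secMor V x hx hl, secMorTot V x hx hl, prodMor V n,
    ⟨n + 1, cc k n, cc_algebraicIndependent k n, adjoin_cc k n⟩,
    secMor_isGenericSection V x hx hl, secMorTot_isLocal V x hx hl, prodMor_isAffineBundle V n,
    rfl, dim_secVar V x hx hl⟩

end Pool.Agent.Helper15K1.TA
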