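import Pool.Agent.Helper15K1.TT.GeoB

/-!
# Reduction of the Tate conjecture for smooth varieties to affine varieties of dimension `2 i`
-/

set_option autoImplicit false

open CategoryTheory AlgebraicGeometry TopologicalSpace Order TensorProduct

namespace Pool.Agent.Helper15K1.TA

open Theory

section Fields

/-- Purely transcendental extensions of purely transcendental extensions are purely
transcendental. -/
lemma IsRational.trans {k K L : Type} [Field k] [Field K] [Field L] [Algebra k K] [Algebra K L]
    [Algebra k L] [IsScalarTower k K L] (h₁ : IsRational k K) (h₂ : IsRational K L) :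
    IsRational k L := by
  obtain ⟨m, t, ht, ht'⟩ := h₁
  obtain ⟨n, u, hu, hu'⟩ := h₂
  let e : Fin (n + m) ≃ Fin n ⊕ Fin m := finSumFinEquiv.symm
  let w : Fin n ⊕ Fin m → L := Sum.elim u (algebraMap K L ∘ t)
  refine ⟨n + m, w ∘ e, (algebraicIndependent_equiv e).2 (ht.sumElim_comp hu), ?_⟩
  rw [e.surjective.range_comp, eq_top_iff]
  set E := IntermediateField.adjoin k (Set.range w) with hE
  have h1 : ∀ a : K, algebraMap K L a ∈ E := by
    have h2 : IntermediateField.adjoin k (Set.range t) ≤ E.comap (IsScalarTower.toAlgHom k K L) := by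
      rw [IntermediateField.adjoin_le_iff]
      rintro _ ⟨j, rfl⟩
      exact IntermediateField.subset_adjoin k _ ⟨Sum.inr j, rfl⟩
    intro a
    exact h2 (ht' ▸ (trivial : a ∈ (⊤ : IntermediateField k K)))
  let E' : IntermediateField K L := { E.toSubfield with algebraMap_mem' := h1 }
  have h3 : (⊤ : IntermediateField K L) ≤ E' := by
    rw [← hu', IntermediateField.adjoin_le_iff]
    rintro _ ⟨j, rfl⟩
    exact IntermediateField.subset_adjoin k _ ⟨Sum.inl j, rfl⟩
  intro z _
  exact h3 (trivial : z ∈ (⊤ : IntermediateField K L))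

/-- Purely transcendental extensions of finitely generated fields are finitely generated. -/
lemma IsRational.isFG {k K : Type} [Field k] [Field K] [Algebra k K] (h : IsRational k K)
    (hk : IsFG k) : IsFG K := by
  classical
  obtain ⟨m, t, -, ht⟩ := h
  obtain ⟨s, hs⟩ := hk
  refine ⟨s.image (algebraMap k K) ∪ Finset.univ.image t, ?_⟩
  rw [eq_top_iff]
  set F := Subfield.closure ((s.image (algebraMap k K) ∪ Finset.univ.image t : Finset K) : Set K)
    with hF
  have h1 : ∀ a : k, algebraMap k K a ∈ F := by
    have h2 : Subfield.closure (s : Set k) ≤ F.comap (algebraMap k K) := by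
      rw [Subfield.closure_le]
      intro a ha
      refine Subfield.subset_closure ?_
      rw [Finset.coe_union, Finset.coe_image]
      exact Or.inl ⟨a, ha, rfl⟩
    intro a
    exact h2 (hs ▸ (trivial : a ∈ (⊤ : Subfield k)))
  let F' : IntermediateField k K := { F with algebraMap_mem' := h1 }
  have h3 : (⊤ : IntermediateField k K) ≤ F' := by
    rw [← ht, IntermediateField.adjoin_le_iff]
    rintro _ ⟨j, rfl⟩
    refine Subfield.subset_closure ?_
    rw [Finset.coe_union, Finset.coe_image, Finset.coe_image]
    exact Or.inr ⟨j, by simp, rfl⟩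
  intro z _
  exact h3 (trivial : z ∈ (⊤ : IntermediateField k K))

lemma IsRational.refl (k : Type) [Field k] : IsRational k k := by
  refine ⟨0, Fin.elim0, ?_, ?_⟩
  · rw [algebraicIndependent_empty_type_iff]
    exact (algebraMap k k).injective
  · rw [eq_top_iff]
    intro z _
    exact (IntermediateField.adjoin k _).algebraMap_mem z

end Fields

section Classes

variable {Λ : Type} [Field Λ] {D : Theory Λ}

/-- Local morphisms preserve the codimension. -/
lemma coheight_of_isLocal {k k' : Type} [Field k] [Field k'] [Algebra k k'] {V' : SmVar k'}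
    {V : SmVar k} {g : Mor V' V} (hg : g.IsLocal) (y : V'.X) :
    coheight (g.hom y) = coheight y := by
  have h1 := ringKrullDim_stalk_eq_coheight y
  have h2 := ringKrullDim_stalk_eq_coheight (g.hom y)
  have := hg y
  have h3 : ringKrullDim (V.X.presheaf.stalk (g.hom y)) = ringKrullDim (V'.X.presheaf.stalk y) :=
    ringKrullDim_eq_of_ringEquiv (asIso (g.hom.stalkMap y)).commRingCatIsoToRingEquiv
  rw [h1, h2] at h3
  exact WithBot.coe_injective h3

/-- Classes of cycles are restrictions of classes of cycles along local morphisms. -/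
lemma exists_alg (h : D.Standard) {k k' : Type} [Field k] [Field k'] [Algebra k k']
    (hk : IsFG k) (hk' : IsFG k') {V' : SmVar k'} {V : SmVar k} {g : Mor V' V}
    (hg : g.IsLocal) {i : ℕ} {c : D.H V' i} (hc : c ∈ D.alg V' i) :
    c ∈ (D.alg V i).map (D.pull g i) := by
  unfold Theory.alg at hc
  refine Submodule.span_le.2 ?_ hc
  rintro _ ⟨y, hy, rfl⟩
  refine ⟨D.cl V i (g.hom y), Submodule.subset_span ⟨g.hom y, ?_, rfl⟩, ?_⟩
  · rw [coheight_of_isLocal hg, hy]
  · exact h.pull_cl hk hk' g hg i y hy

/-- The Tate conjecture for the total space of a bundle of affine spaces implies the Tate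
conjecture for the base. -/
lemma tate_of_bundle (h : D.Standard) {k : Type} [Field k] (hk : IsFG k) {J V : SmVar k}
    (π : Mor J V) (hπ : π.IsAffineBundle) {i : ℕ} (hJ : D.TateConj J i) : D.TateConj V i := by
  intro x hx
  have h1 := hJ _ (h.pull_tate hk hk π i x hx)
  obtain ⟨a, ha, hax⟩ := h.bundle_alg hk π hπ i h1
  rw [← (h.bundle_bijective hk π hπ i).1 hax]
  exact ha

/-- The Tate conjecture for an affine variety of dimension larger than `2 i` follows from that for
its generic hyperplane section. -/
lemma tate_of_section (h : D.Standard) {k : Type} [Field k] (hk : IsFG k) {i : ℕ} (V : SmVar k)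
    (hV : IsAffine V.X) (hd : 2 * i < V.dim) :
    ∃ (k' : Type) (_ : Field k') (_ : Algebra k k') (Y : SmVar k'), IsRational k k' ∧
      IsAffine Y.X ∧ Y.dim + 1 = V.dim ∧ (D.TateConj Y i → D.TateConj V i) := by
  obtain ⟨k', _, _, Y, W, f, g, π, hr, hf, hg, hπ, hfgπ, hdim⟩ :=
    exists_genericSection V hV (by omega)
  refine ⟨k', inferInstance, inferInstance, Y, hr, hf.2.1, hdim, fun hT x hx => ?_⟩
  have hk' : IsFG k' := hr.isFG hk
  have h0 := h.pull_comp hk g π f hfgπ i
  have h1 := hT _ (h.pull_tate hk hk' f i x hx)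
  obtain ⟨b, hb, hbx⟩ := exists_alg h hk hk' hg h1
  obtain ⟨a, ha, hab⟩ := h.bundle_alg hk π hπ i hb
  have h2 : D.pull f i x = D.pull f i a := by rw [← hbx, ← hab, h0 a]
  rw [h.lefschetz hk f hf i hd h2]
  exact ha

/-- The Tate conjecture for an affine variety of dimension at least `2 i` follows from that for
an affine variety of dimension `2 i`. -/
lemma tate_affine (h : D.Standard) {i : ℕ} (d : ℕ) :
    ∀ (k : Type) [Field k], IsFG k → ∀ V : SmVar k, IsAffine V.X → V.dim = 2 * i + d →
      ∃ (K : Type) (_ : Field K) (_ : Algebra k K) (Y : SmVar K), IsRational k K ∧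
        IsAffine Y.X ∧ Y.dim = 2 * i ∧ (D.TateConj Y i → D.TateConj V i) := by
  induction d with
  | zero =>
    intro k _ hk V hV hd
    exact ⟨k, inferInstance, inferInstance, V, IsRational.refl k, hV, hd, id⟩
  | succ d ih =>
    intro k _ hk V hV hd
    obtain ⟨k₁, _, _, Y₁, hr₁, hY₁, hd₁, hT₁⟩ := tate_of_section h hk V hV (i := i) (by omega)
    obtain ⟨K, _, _, Y, hr, hY, hdY, hT⟩ := ih k₁ (hr₁.isFG hk) Y₁ hY₁ (by omega)
    let _ : Algebra k K := ((algebraMap k₁ K).comp (algebraMap k k₁)).toAlgebra
    have _ : IsScalarTower k k₁ K := IsScalarTower.of_algebraMap_eq fun _ => rfl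
    exact ⟨K, inferInstance, inferInstance, Y, hr₁.trans hr, hY, hdY, fun hh => hT₁ (hT hh)⟩

/-- Every smooth variety with an affine bundle reduces to an affine variety of dimension `2 i`. -/
theorem exists_affine (h : D.Standard) (i : ℕ) {k : Type} [Field k] (hk : IsFG k) (V : SmVar k)
    (hV : V.HasAffineBundle) :
    D.TateConj V i ∨ ∃ (K : Type) (_ : Field K) (_ : Algebra k K) (Y : SmVar K),
      IsRational k K ∧ IsAffine Y.X ∧ Y.dim = 2 * i ∧ (D.TateConj Y i → D.TateConj V i) := by
  obtain ⟨J, π, hJ, hπ⟩ := hV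
  rcases lt_or_ge J.dim (2 * i) with hd | hd
  · left
    refine tate_of_bundle h hk π hπ fun x _ => ?_
    rw [h.artin hk J hJ i hd x]
    exact Submodule.zero_mem _
  · right
    obtain ⟨d, hd⟩ := Nat.exists_eq_add_of_le hd
    obtain ⟨K, _, _, Y, hr, hY, hdY, hT⟩ := tate_affine h (i := i) d k hk J hJ hd
    exact ⟨K, inferInstance, inferInstance, Y, hr, hY, hdY,
      fun hh => tate_of_bundle h hk π hπ (hT hh)⟩

/-- Affine varieties have an affine bundle. -/
lemma hasAffineBundle_of_isAffine {k : Type} [Field k] (V : SmVar k) (hV : IsAffine V.X) :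
    V.HasAffineBundle := by
  refine ⟨prodVar V 0, prodMor V 0, ?_, prodMor_isAffineBundle V 0⟩
  change IsAffine (Spec _)
  infer_instance

end Classes

end Pool.Agent.Helper15K1.TA
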